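import Pool.Agent.K3h89.SD.Stm

/-!
# The mean of the singular series over short intervals (Rankin)
-/

set_option autoImplicit false

open Finset

open Pool.Agent.K3h89.SX (sg)

namespace Pool.Agent.K3h89.SD

/-- number of multiples of `d` in a short interval -/
theorem avg_cnt (S₀ L d : ℕ) (hd : 0 < d) :
    (((Ioc S₀ (S₀ + L)).filter (fun s => d ∣ s)).card : ℝ) ≤ (L : ℝ) / d + 1 := by
  have e1 : ((Ioc S₀ (S₀ + L)).filter (fun s => d ∣ s)).card + S₀ / d = (S₀ + L) / d := by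
    rw [← Nat.Ioc_filter_dvd_card_eq_div (S₀ + L) d, ← Nat.Ioc_filter_dvd_card_eq_div S₀ d]
    have e2 : (Ioc 0 (S₀ + L)).filter (fun m => d ∣ m) =
        ((Ioc S₀ (S₀ + L)).filter (fun s => d ∣ s)) ∪ (Ioc 0 S₀).filter (fun m => d ∣ m) := by
      ext m
      simp only [mem_filter, mem_Ioc, mem_union]
      constructor
      · rintro ⟨⟨h1, h2⟩, h3⟩
        by_cases h4 : m ≤ S₀
        · exact Or.inr ⟨⟨h1, h4⟩, h3⟩
        · exact Or.inl ⟨⟨by omega, by omega⟩, h3⟩
      · rintro (⟨⟨h1, h2⟩, h3⟩ | ⟨⟨h1, h2⟩, h3⟩)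
        · exact ⟨⟨by omega, by omega⟩, h3⟩
        · exact ⟨⟨h1, by omega⟩, h3⟩
    rw [e2, card_union_of_disjoint]
    rw [disjoint_left]
    intro m hm hm2
    simp only [mem_filter, mem_Ioc] at hm hm2
    omega
  have hdr : (0 : ℝ) < d := by exact_mod_cast hd
  have a1 : (((S₀ + L) / d : ℕ) : ℝ) ≤ ((S₀ : ℝ) + L) / d := by
    have := Nat.cast_div_le (m := S₀ + L) (n := d) (α := ℝ)
    push_cast at this
    exact this
  have a4 : (S₀ : ℝ) / d - 1 < ((S₀ / d : ℕ) : ℝ) := by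
    rw [sub_lt_iff_lt_add, div_lt_iff₀ hdr]
    have h1 : S₀ < (S₀ / d + 1) * d := by
      have := Nat.lt_mul_div_succ S₀ hd
      rw [mul_comm] at this
      exact this
    exact_mod_cast h1
  have e3 : (((Ioc S₀ (S₀ + L)).filter (fun s => d ∣ s)).card : ℝ) + ((S₀ / d : ℕ) : ℝ)
      = (((S₀ + L) / d : ℕ) : ℝ) := by exact_mod_cast e1
  rw [add_div] at a1
  linarith

theorem avg_cnt2 (S₀ L d : ℕ) (hd : 0 < d) (hL : S₀ + L ≤ L ^ 2) :
    (((Ioc S₀ (S₀ + L)).filter (fun s => d ∣ s)).card : ℝ) ≤ 2 * L * (√(d : ℝ))⁻¹ := by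
  have hdr : (0 : ℝ) < d := by exact_mod_cast hd
  have hs : 0 < √(d : ℝ) := Real.sqrt_pos.2 hdr
  by_cases h : d ≤ S₀ + L
  · have h1 := avg_cnt S₀ L d hd
    have h2 : √(d : ℝ) ≤ L := by
      rw [Real.sqrt_le_left (by positivity)]
      exact_mod_cast h.trans hL
    have h3 : (L : ℝ) / d ≤ L * (√(d : ℝ))⁻¹ := by
      rw [div_eq_mul_inv]
      apply mul_le_mul_of_nonneg_left _ (Nat.cast_nonneg L)
      apply inv_anti₀ hs
      rw [Real.sqrt_le_left hdr.le]
      have : (1 : ℝ) ≤ d := by exact_mod_cast hd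
      nlinarith
    have h4 : 1 ≤ L * (√(d : ℝ))⁻¹ := by
      rw [← div_eq_mul_inv, le_div_iff₀ hs]
      linarith
    linarith
  · have h1 : ((Ioc S₀ (S₀ + L)).filter (fun s => d ∣ s)) = ∅ := by
      apply filter_eq_empty_iff.2
      intro s hs hds
      rw [mem_Ioc] at hs
      have := Nat.le_of_dvd (by omega) hds
      omega
    rw [h1]
    simp only [card_empty, Nat.cast_zero]
    positivity

theorem avg_sqrt (T : Finset ℕ) : (√((∏ p ∈ T, p : ℕ) : ℝ))⁻¹ = ∏ p ∈ T, (√(p : ℝ))⁻¹ := by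
  classical
  induction T using Finset.induction_on with
  | empty => simp
  | insert a T ha ih =>
    rw [prod_insert ha, prod_insert ha, ← ih, Nat.cast_mul, Real.sqrt_mul (Nat.cast_nonneg a),
      mul_inv]

theorem avg_three {p : ℕ} (hp : p.Prime) (h2 : p ≠ 2) : (3 : ℝ) ≤ p := by
  have : 3 ≤ p := by
    have := hp.two_le
    omega
  exact_mod_cast this

/-- the mean of the singular series over short intervals is bounded -/
theorem avg : S_AVG := by
  classical
  have hsum : Summable (fun n : ℕ => 1 / (n : ℝ) ^ ((3 : ℝ) / 2)) :=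
    Real.summable_one_div_nat_rpow.2 (by norm_num)
  refine ⟨2 * Real.exp (3 * ∑' n : ℕ, 1 / (n : ℝ) ^ ((3 : ℝ) / 2)), by positivity, ?_⟩
  intro S₀ L hL1 hL
  set P : Finset ℕ := (Finset.range (S₀ + L + 1)).filter (fun p => p.Prime ∧ p ≠ 2) with hPdef
  set g : ℕ → ℝ := fun p => 1 / ((p : ℝ) - 2) with hg
  have hPg : ∀ p ∈ P, 0 ≤ g p := by
    intro p hp
    rw [hPdef, mem_filter] at hp
    have := avg_three hp.2.1 hp.2.2
    simp only [hg]
    apply div_nonneg zero_le_one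
    linarith
  -- expansion of the singular series
  have h1 : ∀ s ∈ Ioc S₀ (S₀ + L), sg s ≤
      ∑ T ∈ P.powerset, if (∏ p ∈ T, p) ∣ s then ∏ p ∈ T, g p else 0 := by
    intro s hs
    rw [mem_Ioc] at hs
    have e1 : sg s = ∏ p ∈ s.primeFactors.erase 2, (1 + g p) := by
      unfold Pool.Agent.K3h89.SX.sg
      apply prod_congr rfl
      intro p hp
      rw [mem_erase] at hp
      have := avg_three (Nat.prime_of_mem_primeFactors hp.2) hp.1
      simp only [hg]
      have h : (p : ℝ) - 2 ≠ 0 := by linarith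
      field_simp
      ring
    rw [e1, prod_one_add, ← sum_filter]
    apply sum_le_sum_of_subset_of_nonneg
    · intro T hT
      rw [mem_powerset] at hT
      rw [mem_filter, mem_powerset]
      refine ⟨?_, ?_⟩
      · intro p hp
        have hp1 := hT hp
        rw [mem_erase] at hp1
        rw [hPdef, mem_filter, mem_range]
        have h3 := Nat.le_of_mem_primeFactors hp1.2
        exact ⟨by omega, Nat.prime_of_mem_primeFactors hp1.2, hp1.1⟩
      · apply Finset.prod_primes_dvd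
        · intro p hp
          have hp1 := hT hp
          rw [mem_erase] at hp1
          exact (Nat.prime_of_mem_primeFactors hp1.2).prime
        · intro p hp
          have hp1 := hT hp
          rw [mem_erase] at hp1
          exact Nat.dvd_of_mem_primeFactors hp1.2
    · intro T hT _
      rw [mem_filter, mem_powerset] at hT
      exact prod_nonneg (fun p hp => hPg p (hT.1 hp))
  have h2 : ∑ s ∈ Ioc S₀ (S₀ + L), sg s ≤
      ∑ T ∈ P.powerset, (∏ p ∈ T, g p) *
        (((Ioc S₀ (S₀ + L)).filter (fun s => (∏ p ∈ T, p) ∣ s)).card : ℝ) := by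
    refine (sum_le_sum h1).trans (le_of_eq ?_)
    rw [sum_comm]
    apply sum_congr rfl
    intro T _
    rw [← sum_filter, sum_const, nsmul_eq_mul, mul_comm]
  have h3 : ∀ T ∈ P.powerset, (∏ p ∈ T, g p) *
        (((Ioc S₀ (S₀ + L)).filter (fun s => (∏ p ∈ T, p) ∣ s)).card : ℝ)
        ≤ 2 * L * ∏ p ∈ T, (g p * (√(p : ℝ))⁻¹) := by
    intro T hT
    rw [mem_powerset] at hT
    have hpos : 0 < ∏ p ∈ T, p := by
      apply prod_pos
      intro p hp
      have hp1 := hT hp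
      rw [hPdef, mem_filter] at hp1
      exact hp1.2.1.pos
    have h4 := avg_cnt2 S₀ L (∏ p ∈ T, p) hpos hL
    rw [avg_sqrt] at h4
    have h5 : 0 ≤ ∏ p ∈ T, g p := prod_nonneg (fun p hp => hPg p (hT hp))
    rw [prod_mul_distrib]
    have h6 := mul_le_mul_of_nonneg_left h4 h5
    refine h6.trans (le_of_eq ?_)
    ring
  have h4 : ∑ T ∈ P.powerset, 2 * (L : ℝ) * ∏ p ∈ T, (g p * (√(p : ℝ))⁻¹)
      = 2 * L * ∏ p ∈ P, (1 + g p * (√(p : ℝ))⁻¹) := by
    rw [prod_one_add, mul_sum]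
  have h5 : ∏ p ∈ P, (1 + g p * (√(p : ℝ))⁻¹)
      ≤ Real.exp (3 * ∑' n : ℕ, 1 / (n : ℝ) ^ ((3 : ℝ) / 2)) := by
    have e1 : ∏ p ∈ P, (1 + g p * (√(p : ℝ))⁻¹) ≤ ∏ p ∈ P, Real.exp (g p * (√(p : ℝ))⁻¹) := by
      apply prod_le_prod
      · intro p hp
        have := hPg p hp
        positivity
      · intro p hp
        have := Real.add_one_le_exp (g p * (√(p : ℝ))⁻¹)
        linarith
    rw [← Real.exp_sum] at e1
    refine e1.trans (Real.exp_le_exp.2 ?_)
    have e2 : ∑ p ∈ P, g p * (√(p : ℝ))⁻¹ ≤ ∑ p ∈ P, 3 * (1 / (p : ℝ) ^ ((3 : ℝ) / 2)) := by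
      apply sum_le_sum
      intro p hp
      rw [hPdef, mem_filter] at hp
      have hp3 := avg_three hp.2.1 hp.2.2
      have hp0 : (0 : ℝ) < p := by linarith
      have e3 : (p : ℝ) ^ ((3 : ℝ) / 2) = p * √(p : ℝ) := by
        rw [show (3 : ℝ) / 2 = 1 + 1 / 2 by norm_num, Real.rpow_add hp0, Real.rpow_one,
          ← Real.sqrt_eq_rpow]
      rw [e3]
      simp only [hg]
      rw [one_div_mul_eq_div, one_div, mul_inv, ← mul_assoc, div_eq_mul_inv, mul_comm ((√(p : ℝ))⁻¹)]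
      apply mul_le_mul_of_nonneg_right _ (by positivity)
      rw [← div_eq_mul_inv, inv_le_comm₀ (by linarith) (by positivity), inv_div]
      linarith
    refine e2.trans ?_
    rw [← mul_sum]
    apply mul_le_mul_of_nonneg_left _ (by norm_num)
    exact hsum.sum_le_tsum P (fun n _ => by positivity)
  calc ∑ s ∈ Ioc S₀ (S₀ + L), sg s ≤ _ := h2
    _ ≤ _ := sum_le_sum h3
    _ = _ := h4
    _ ≤ 2 * L * Real.exp (3 * ∑' n : ℕ, 1 / (n : ℝ) ^ ((3 : ℝ) / 2)) :=
        mul_le_mul_of_nonneg_left h5 (by positivity)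
    _ = _ := by ring

end Pool.Agent.K3h89.SD
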