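import Pool.Agent.K3h89.SD.Graph
import Pool.Agent.H515R2.PP.Main

set_option autoImplicit false

/-!
# The reduction graph as an adjacency matrix
-/

namespace Pool.Agent.K3h89.SD

open Pool.Agent.NPC Pool.Agent.H622R2 Pool.Agent.H692R2

/-- Labels of core vertices: kind, number, sign, clause. -/
abbrev Lab := ℕ × ℕ × Bool × Cl3

/-- Labels: a core vertex `a` is `(a, a, false)`, the vertex number `i` of the strong edge from `a`
to `b` is `(a, b, i)`. -/
abbrev Lam := Lab × Lab × Bool

instance decCl3 : DecidableEq Cl3 := inferInstance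
instance decLab : DecidableEq Lab := inferInstance
instance decLam : DecidableEq Lam := inferInstance

/-- A dummy clause. -/
def dc : Cl3 := ((false, 0), (false, 0), (false, 0))

/-- The variables. -/
def vl (φ : List Cl3) : List ℕ := ddup (φ.flatMap (fun c => [c.1.2, c.2.1.2, c.2.2.2]))

/-- Labels of the hubs. -/
def hubL (k : ℕ) : Lab := (0, k, false, dc)
/-- Labels of the blockers. -/
def tL (j : ℕ) (c : Cl3) : Lab := (1, j, false, c)
/-- Labels of the literals. -/
def litL (v : ℕ) (s : Bool) : Lab := (2, v, s, dc)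
/-- Labels of the auxiliary vertices. -/
def bL (v : ℕ) (s : Bool) : Lab := (3, v, s, dc)

/-- All labels of core vertices. -/
def coreL (φ : List Cl3) : List Lab :=
  (List.range (φ.length + 1)).map (fun k => hubL k) ++
  (φ.zipIdx.map (fun p => tL p.2 p.1) ++
  (vl φ).flatMap (fun v => [litL v false, litL v true, bL v false, bL v true]))

/-- All strong edges. -/
def stL (φ : List Cl3) : List (Lab × Lab) :=
  φ.zipIdx.flatMap (fun p => [(hubL p.2, tL p.2 p.1), (tL p.2 p.1, hubL (p.2 + 1))]) ++
  (vl φ).flatMap (fun v => [(hubL φ.length, bL v false), (hubL φ.length, bL v true),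
    (bL v false, litL v false), (bL v true, litL v true)])

/-- All vertices (labels). -/
def vs (φ : List Cl3) : List Lam :=
  ddup ((coreL φ).map (fun a => (a, a, false)) ++
    (stL φ).flatMap (fun d => [(d.1, d.2, false), (d.1, d.2, true)]))

/-- The literal occurs in the clause. -/
def occ (l : Bool × ℕ) (c : Cl3) : Bool :=
  decide (l = c.1) || (decide (l = c.2.1) || decide (l = c.2.2))

/-- Adjacency of core labels, one direction. -/
def coB (a b : Lab) : Bool :=
  (decide (a.1 = 0) && (decide (b.1 = 0) && !decide (a.2.1 = b.2.1))) ||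
  ((decide (a.1 = 0) && decide (b.1 = 1)) ||
  ((decide (a.1 = 0) && decide (b.1 = 2)) ||
  ((decide (a.1 = 0) && (decide (b.1 = 3) && !decide (a.2.1 = 0))) ||
  ((decide (a.1 = 2) && (decide (b.1 = 2) && !decide (a.2.1 = b.2.1))) ||
  ((decide (a.1 = 2) && decide (b.1 = 3)) ||
  (decide (a.1 = 1) && (decide (b.1 = 2) && !occ (b.2.2.1, b.2.1) a.2.2.2)))))))

/-- Adjacency of labels. -/
def adjB (p q : Lam) : Bool :=
  bif decide (p.1 = p.2.1) then
    (bif decide (q.1 = q.2.1) then (coB p.1 q.1 || coB q.1 p.1)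
      else (bif q.2.2 then decide (p.1 = q.2.1) else decide (p.1 = q.1)))
  else
    (bif decide (q.1 = q.2.1) then (bif p.2.2 then decide (q.1 = p.2.1) else decide (q.1 = p.1))
      else (decide (p.1 = q.1) && (decide (p.2.1 = q.2.1) && !decide (p.2.2 = q.2.2))))

theorem poly_vl {α : Type} [TEnc α] {φ : α → List Cl3} (hφ : Poly φ) :
    Poly (fun a => vl (φ a)) := by
  unfold vl
  exact ddup_poly (by fun_prop)

theorem poly_coB {α : Type} [TEnc α] {a b : α → Lab} (ha : Poly a) (hb : Poly b) :
    Poly (fun x => coB (a x) (b x)) := by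
  unfold coB occ
  fun_prop

theorem poly_adjB {α : Type} [TEnc α] {a b : α → Lam} (ha : Poly a) (hb : Poly b) :
    Poly (fun x => adjB (a x) (b x)) := by
  unfold adjB
  have h1 : Poly (fun x => coB (a x).1 (b x).1) := poly_coB (by fun_prop) (by fun_prop)
  have h2 : Poly (fun x => coB (b x).1 (a x).1) := poly_coB (by fun_prop) (by fun_prop)
  fun_prop

theorem poly_range1 {α : Type} [TEnc α] {φ : α → List Cl3} (hφ : Poly φ) :
    Poly (fun a => List.range ((φ a).length + 1)) :=
  UPoly.range (UPoly.add (UPoly.length hφ) (UPoly.const 1))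

theorem poly_coreL {α : Type} [TEnc α] {φ : α → List Cl3} (hφ : Poly φ) :
    Poly (fun a => coreL (φ a)) := by
  unfold coreL hubL tL litL bL
  have h1 := poly_vl hφ
  have h2 := poly_range1 hφ
  fun_prop

theorem poly_stL {α : Type} [TEnc α] {φ : α → List Cl3} (hφ : Poly φ) :
    Poly (fun a => stL (φ a)) := by
  unfold stL hubL tL litL bL
  have h1 := poly_vl hφ
  fun_prop

theorem poly_vs {α : Type} [TEnc α] {φ : α → List Cl3} (hφ : Poly φ) :
    Poly (fun a => vs (φ a)) := by
  unfold vs
  have h1 := poly_coreL hφ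
  have h2 := poly_stL hφ
  exact ddup_poly (by fun_prop)

end Pool.Agent.K3h89.SD
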