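import Mathlib

set_option autoImplicit false

/-!
# The core of the reduction graph for strong 2-divisibility

The core has hubs `hub 0, …, hub m` (pairwise adjacent), a blocker `t j` for every clause `j < m`,
a vertex `lit v s` for every literal and a vertex `b v s` for every literal.  There are strong edges
between consecutive members of the chain `hub 0, t 0, hub 1, t 1, …, hub m`, and the strong edges
`hub m - b v s - lit v s`.
-/

namespace Pool.Agent.K3h89.SD

/-- `K` is a maximal clique of the graph induced on `U` by the adjacency relation `r`. -/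
structure MaxIn {V : Type*} (r : V → V → Prop) (U K : Set V) : Prop where
  sub : K ⊆ U
  cl : ∀ x ∈ K, ∀ y ∈ K, x ≠ y → r x y
  mx : ∀ x ∈ U, (∀ y ∈ K, x ≠ y → r x y) → x ∈ K

/-- Core vertices. -/
inductive Co (V : Type) (m : ℕ) : Type
  | hub (k : Fin (m + 1)) : Co V m
  | t (j : Fin m) : Co V m
  | lit (v : V) (s : Bool) : Co V m
  | b (v : V) (s : Bool) : Co V m

/-- Strong edges. -/
inductive St (V : Type) (m : ℕ) : Type
  | sa (j : Fin m) : St V m
  | sb (j : Fin m) : St V m
  | sc (v : V) (s : Bool) : St V m
  | sd (v : V) (s : Bool) : St V m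

variable {V : Type} {m : ℕ}

open Co St

/-- The beginning of a strong edge. -/
def src : St V m → Co V m
  | sa j => hub j.castSucc
  | sb j => t j
  | sc _ _ => hub (Fin.last m)
  | sd v s => b v s

/-- The end of a strong edge. -/
def tgt : St V m → Co V m
  | sa j => t j
  | sb j => hub j.succ
  | sc v s => b v s
  | sd v s => lit v s

/-- Adjacency in the core; `inc j v s` says that the literal `(v, s)` occurs in clause `j`. -/
def cadj (inc : Fin m → V → Bool → Prop) : Co V m → Co V m → Prop
  | hub i, hub j => i ≠ j
  | hub _, t _ => True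
  | t _, hub _ => True
  | hub _, lit _ _ => True
  | lit _ _, hub _ => True
  | hub k, b _ _ => k ≠ 0
  | b _ _, hub k => k ≠ 0
  | lit v _, lit w _ => v ≠ w
  | lit _ _, b _ _ => True
  | b _ _, lit _ _ => True
  | t j, lit v s => ¬ inc j v s
  | lit v s, t j => ¬ inc j v s
  | _, _ => False

theorem cadj_symm (inc : Fin m → V → Bool → Prop) (x y : Co V m) :
    cadj inc x y → cadj inc y x := by
  cases x <;> cases y <;> simp only [cadj] <;> intro h <;> first | exact h | exact Ne.symm h

theorem cadj_irrefl (inc : Fin m → V → Bool → Prop) (x : Co V m) : ¬ cadj inc x x := by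
  cases x <;> simp [cadj]

variable {inc : Fin m → V → Bool → Prop}

/-- the statement about a colouring of the core -/
def Fine (inc : Fin m → V → Bool → Prop) (W : Set (Co V m)) (I : St V m → Prop)
    (γ : Co V m → Bool) : Prop :=
  (∀ d, I d → γ (src d) ≠ γ (tgt d)) ∧
    ∀ K, MaxIn (cadj inc) W K → K.Nontrivial → ∃ u ∈ K, ∃ v ∈ K, γ u ≠ γ v

section

variable {W K : Set (Co V m)}

/-- a hub adjacent to all vertices of a maximal clique -/
theorem hub_mem_of_t (hK : MaxIn (cadj inc) W K) {j : Fin m} (hj : t j ∈ K) {k : Fin (m + 1)}
    (hk : hub k ∈ W) : hub k ∈ K := by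
  refine hK.mx _ hk fun y hy hne => ?_
  cases y with
  | hub i => exact fun h => hne (by rw [h])
  | t i => trivial
  | lit v s => trivial
  | b v s => exact absurd (hK.cl _ hj _ hy (by simp)) (by simp [cadj])

theorem hub_mem_of_b (hK : MaxIn (cadj inc) W K) {k : Fin (m + 1)}
    (hk : hub k ∈ W) (hk0 : k ≠ 0) : hub k ∈ K := by
  refine hK.mx _ hk fun y hy hne => ?_
  cases y with
  | hub i => exact fun h => hne (by rw [h])
  | t i => trivial
  | lit v s => trivial
  | b v s => exact hk0

theorem hub_mem_of_no_b (hK : MaxIn (cadj inc) W K) (hb : ∀ v s, b v s ∉ K) {k : Fin (m + 1)}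
    (hk : hub k ∈ W) : hub k ∈ K := by
  refine hK.mx _ hk fun y hy hne => ?_
  cases y with
  | hub i => exact fun h => hne (by rw [h])
  | t i => trivial
  | lit v s => trivial
  | b v s => exact absurd hy (hb v s)

/-- Case 1: the whole chain is there. -/
theorem case_full (hm : 0 < m) (hun : ∀ τ : V → Bool, ∃ j, ∀ v s, inc j v s → τ v ≠ s)
    {I : St V m → Prop} (hW1 : ∀ k, hub k ∈ W) (hW2 : ∀ j, t j ∈ W) :
    ∃ γ, Fine inc W I γ := by
  classical
  refine ⟨fun x => match x with
    | hub _ => false
    | t _ => true
    | lit _ _ => false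
    | b _ _ => true, ?_, ?_⟩
  · intro d _
    cases d <;> simp [src, tgt]
  · intro K hK _
    by_cases ht : ∃ j, t j ∈ K
    · obtain ⟨j, hj⟩ := ht
      exact ⟨_, hj, hub 0, hub_mem_of_t hK hj (hW1 0), by simp⟩
    push Not at ht
    by_cases hb : ∃ v s, b v s ∈ K
    · obtain ⟨v, s, hvs⟩ := hb
      exact ⟨_, hvs, hub (Fin.last m), hub_mem_of_b hK (hW1 _) (by
        intro h
        have := congrArg Fin.val h
        simp at this
        omega), by simp⟩
    push Not at hb
    exfalso
    obtain ⟨j, hj⟩ := hun (fun v => decide (lit v true ∈ K))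
    apply ht j
    refine hK.mx _ (hW2 j) fun y hy hne => ?_
    cases y with
    | hub i => trivial
    | t i => exact absurd hy (ht i)
    | b v s => exact absurd hy (hb v s)
    | lit v s =>
      intro hinc
      apply hj v s hinc
      cases s with
      | true => simpa using hy
      | false =>
        simp only [decide_eq_false_iff_not]
        intro h
        have := hK.cl _ hy _ h (by simp)
        exact this rfl

/-- Case 2: a broken link with hubs on both sides. -/
theorem case_broken {I : St V m → Prop} (k : Fin m) (i j : Fin (m + 1)) (hi : hub i ∈ W)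
    (hj : hub j ∈ W) (hik : i ≤ k.castSucc) (hkj : k.succ ≤ j)
    (hbr : ¬ (I (sa k) ∧ I (sb k))) : ∃ γ, Fine inc W I γ := by
  classical
  refine ⟨fun x => match x with
    | hub l => decide (l ≤ k.castSucc)
    | t l => if l < k then false else if l = k then (if I (sa k) then false else true) else true
    | lit _ _ => false
    | b _ _ => true, ?_, ?_⟩
  · intro d hd
    cases d with
    | sa l =>
      simp only [src, tgt, Fin.castSucc_le_castSucc_iff]
      rcases lt_trichotomy l k with h | h | h
      · simp [h, h.le]
      · subst h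
        simp [hd]
      · simp [h.not_gt, h.ne', not_le.2 h]
    | sb l =>
      simp only [src, tgt]
      rcases lt_trichotomy l k with h | h | h
      · have : l.succ ≤ k.castSucc := by
          rw [Fin.le_def]; simp; exact h
        simp [h, this]
      · subst h
        have h1 : ¬ I (sa l) := fun h => hbr ⟨h, hd⟩
        have h2 : ¬ l.succ ≤ l.castSucc := by
          rw [Fin.le_def]; simp
        simp [h1, h2]
      · have h2 : ¬ l.succ ≤ k.castSucc := by
          rw [Fin.le_def]; simp
          have : (k : ℕ) < l := h
          omega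
        simp [h.not_gt, h.ne', h2]
    | sc v s =>
      simp only [src, tgt]
      have : ¬ Fin.last m ≤ k.castSucc := by
        rw [Fin.le_def]; simp
      simp [this]
    | sd v s => simp [src, tgt]
  · intro K hK _
    have hj0 : j ≠ 0 := by
      intro h
      rw [h, Fin.le_def] at hkj
      simp at hkj
    have hjk : ¬ j ≤ k.castSucc := by
      rw [Fin.le_def] at hkj ⊢
      simp at hkj ⊢
      omega
    by_cases hb : ∃ v s, b v s ∈ K
    · obtain ⟨v, s, hvs⟩ := hb
      exact ⟨_, hvs, hub j, hub_mem_of_b hK hj hj0, by simp [hjk]⟩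
    push Not at hb
    exact ⟨hub i, hub_mem_of_no_b hK hb hi, hub j, hub_mem_of_no_b hK hb hj, by simp [hik, hjk]⟩

/-- If all present hubs are linked then a nontrivial maximal clique does not consist of hubs. -/
theorem no_hub_clique (hK : MaxIn (cadj inc) W K) (hnt : K.Nontrivial) {I : St V m → Prop}
    (hI : ∀ d, I d → src d ∈ W ∧ tgt d ∈ W)
    (hlink : ∀ k : Fin m, (∃ i ≤ k.castSucc, hub i ∈ W) → (∃ j, k.succ ≤ j ∧ hub j ∈ W) →
      I (sa k) ∧ I (sb k))
    (hall : ∀ x ∈ K, ∃ k, x = hub k) : False := by
  obtain ⟨x, hx, y, hy, hxy⟩ := hnt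
  obtain ⟨i, rfl⟩ := hall x hx
  obtain ⟨j, rfl⟩ := hall y hy
  have key : ∀ i j : Fin (m + 1), i < j → hub i ∈ K → hub j ∈ K → False := by
    intro i j hij hi hj
    have him : (i : ℕ) < m := by
      have h1 : (i : ℕ) < j := hij
      have h2 := j.2
      omega
    have h1 := hlink ⟨i, him⟩ ⟨i, by rw [Fin.le_def]; simp, hK.sub hi⟩
      ⟨j, by rw [Fin.le_def]; simpa using hij, hK.sub hj⟩
    have h2 : t ⟨i, him⟩ ∈ W := (hI _ h1.1).2
    have h3 : t ⟨i, him⟩ ∈ K := by
      refine hK.mx _ h2 fun y hy _ => ?_
      obtain ⟨k, rfl⟩ := hall y hy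
      trivial
    obtain ⟨k, hk⟩ := hall _ h3
    exact absurd hk (by simp)
  have hne : i ≠ j := fun h => hxy (by rw [h])
  rcases lt_or_gt_of_ne hne with h | h
  · exact key i j h hx hy
  · exact key j i h hy hx

/-- Case 3: all present hubs are linked, `hub m` is missing, some hub is present. -/
theorem case_no_last {I : St V m → Prop} (hI : ∀ d, I d → src d ∈ W ∧ tgt d ∈ W)
    (hlink : ∀ k : Fin m, (∃ i ≤ k.castSucc, hub i ∈ W) → (∃ j, k.succ ≤ j ∧ hub j ∈ W) →
      I (sa k) ∧ I (sb k)) (hl : hub (Fin.last m) ∉ W) (k : Fin (m + 1)) (hk : hub k ∈ W) :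
    ∃ γ, Fine inc W I γ := by
  classical
  refine ⟨fun x => match x with
    | hub _ => false
    | t _ => true
    | lit _ _ => true
    | b _ _ => if ∃ v s, lit v s ∈ W then false else true, ?_, ?_⟩
  · intro d hd
    cases d with
    | sa l => simp [src, tgt]
    | sb l => simp [src, tgt]
    | sc v s => exact absurd (hI _ hd).1 hl
    | sd v s =>
      have h1 : ∃ v s, lit v s ∈ W := ⟨v, s, (hI _ hd).2⟩
      simp only [src, tgt]
      rw [if_pos h1]
      simp
  · intro K hK hnt
    by_cases hb : ∃ v s, b v s ∈ K
    · obtain ⟨v, s, hvs⟩ := hb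
      by_cases hL : ∃ v s, lit v s ∈ W
      · have : ∃ w r, lit w r ∈ K := by
          by_contra hno
          push Not at hno
          obtain ⟨w, r, hwr⟩ := hL
          apply hno w r
          refine hK.mx _ hwr fun y hy _ => ?_
          cases y with
          | hub i => trivial
          | t i => exact absurd (hK.cl _ hvs _ hy (by simp)) (by simp [cadj])
          | lit v s => exact absurd hy (hno v s)
          | b v s => trivial
        obtain ⟨w, r, hwr⟩ := this
        refine ⟨_, hvs, _, hwr, ?_⟩
        simp only
        rw [if_pos hL]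
        simp
      · -- `K` contains a hub
        obtain ⟨x, hx, y, hy, hxy⟩ := hnt
        have : ∃ i, hub i ∈ K := by
          have aux : ∀ z ∈ K, z ≠ b v s → ∃ i, hub i ∈ K := by
            intro z hz hzb
            cases z with
            | hub i => exact ⟨i, hz⟩
            | t i => exact absurd (hK.cl _ hvs _ hz (by simp)) (by simp [cadj])
            | lit v s => exact absurd ⟨v, s, hK.sub hz⟩ hL
            | b w r => exact absurd (hK.cl _ hvs _ hz (Ne.symm hzb)) (by simp [cadj])
          by_cases hxb : x = b v s
          · exact aux y hy (fun h => hxy (by rw [hxb, h]))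
          · exact aux x hx hxb
        obtain ⟨i, hi⟩ := this
        refine ⟨_, hvs, _, hi, ?_⟩
        simp only
        rw [if_neg hL]
        simp
    push Not at hb
    have hkK := hub_mem_of_no_b hK hb hk
    by_cases h2 : ∃ x ∈ K, ∀ i, x ≠ hub i
    · obtain ⟨x, hx, hxi⟩ := h2
      refine ⟨_, hkK, x, hx, ?_⟩
      cases x with
      | hub i => exact absurd rfl (hxi i)
      | t i => simp
      | lit v s => simp
      | b v s => exact absurd hx (hb v s)
    · push Not at h2
      exact (no_hub_clique hK hnt hI hlink h2).elim

/-- Case 4: all present hubs are linked, `hub 0` is missing, `hub m` is present. -/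
theorem case_no_zero {I : St V m → Prop} (hI : ∀ d, I d → src d ∈ W ∧ tgt d ∈ W)
    (hlink : ∀ k : Fin m, (∃ i ≤ k.castSucc, hub i ∈ W) → (∃ j, k.succ ≤ j ∧ hub j ∈ W) →
      I (sa k) ∧ I (sb k)) (h0 : hub 0 ∉ W) (hl : hub (Fin.last m) ∈ W) :
    ∃ γ, Fine inc W I γ := by
  classical
  refine ⟨fun x => match x with
    | hub _ => false
    | t _ => true
    | lit _ _ => if ∃ v s, b v s ∈ W then false else true
    | b _ _ => true, ?_, ?_⟩
  · intro d hd
    cases d with
    | sa l => simp [src, tgt]
    | sb l => simp [src, tgt]
    | sc v s => simp [src, tgt]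
    | sd v s =>
      have h1 : ∃ v s, b v s ∈ W := ⟨v, s, (hI _ hd).1⟩
      simp only [src, tgt]
      rw [if_pos h1]
      simp
  · intro K hK hnt
    have hlK : hub (Fin.last m) ∈ K := by
      refine hK.mx _ hl fun y hy hne => ?_
      cases y with
      | hub i => exact fun h => hne (by rw [h])
      | t i => trivial
      | lit v s => trivial
      | b v s =>
        intro h
        rw [h] at hl
        exact h0 hl
    by_cases hb : ∃ v s, b v s ∈ K
    · obtain ⟨v, s, hvs⟩ := hb
      exact ⟨_, hvs, _, hlK, by simp⟩
    by_cases ht : ∃ j, t j ∈ K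
    · obtain ⟨j, hj⟩ := ht
      exact ⟨_, hj, _, hlK, by simp⟩
    push Not at hb ht
    by_cases hB : ∃ v s, b v s ∈ W
    · exfalso
      obtain ⟨v, s, hvs⟩ := hB
      apply hb v s
      refine hK.mx _ hvs fun y hy _ => ?_
      cases y with
      | hub i =>
        intro h
        rw [h] at hy
        exact h0 (hK.sub hy)
      | t i => exact absurd hy (ht i)
      | lit v s => trivial
      | b v s => exact absurd hy (hb v s)
    by_cases h2 : ∃ x ∈ K, ∀ i, x ≠ hub i
    · obtain ⟨x, hx, hxi⟩ := h2
      refine ⟨_, hlK, x, hx, ?_⟩
      cases x with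
      | hub i => exact absurd rfl (hxi i)
      | t i => simp
      | lit v s =>
        simp only
        rw [if_neg hB]
        simp
      | b v s => exact absurd hx (hb v s)
    · push Not at h2
      exact (no_hub_clique hK hnt hI hlink h2).elim

/-- Case 5: no hubs. -/
theorem case_no_hub {I : St V m → Prop} (hI : ∀ d, I d → src d ∈ W ∧ tgt d ∈ W)
    (hh : ∀ k, hub k ∉ W) : ∃ γ, Fine inc W I γ := by
  classical
  by_cases hB : ∃ v s, b v s ∈ W
  · refine ⟨fun x => match x with
      | hub _ => false
      | t _ => true
      | lit _ _ => false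
      | b _ _ => true, ?_, ?_⟩
    · intro d hd
      cases d <;> simp [src, tgt]
    · intro K hK hnt
      have hlit : ∃ v s, lit v s ∈ K := by
        obtain ⟨x, hx, y, hy, hxy⟩ := hnt
        by_contra hno
        push Not at hno
        have h1 := hK.cl x hx y hy hxy
        cases x with
        | hub i => exact hh i (hK.sub hx)
        | lit v s => exact hno v s hx
        | t i =>
          cases y with
          | hub i => exact hh i (hK.sub hy)
          | lit v s => exact hno v s hy
          | t i => exact h1
          | b v s => exact h1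
        | b w r =>
          cases y with
          | hub i => exact hh i (hK.sub hy)
          | lit v s => exact hno v s hy
          | t i => exact h1
          | b v s => exact h1
      obtain ⟨w, r, hwr⟩ := hlit
      by_cases h2 : ∃ x ∈ K, ∀ v s, x ≠ lit v s
      · obtain ⟨x, hx, hxi⟩ := h2
        refine ⟨_, hwr, x, hx, ?_⟩
        cases x with
        | hub i => exact absurd (hK.sub hx) (hh i)
        | t i => simp
        | lit v s => exact absurd rfl (hxi v s)
        | b v s => simp
      · push Not at h2
        exfalso
        obtain ⟨v, s, hvs⟩ := hB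
        have : b v s ∈ K := by
          refine hK.mx _ hvs fun y hy _ => ?_
          obtain ⟨v', s', rfl⟩ := h2 y hy
          trivial
        obtain ⟨v', s', h⟩ := h2 _ this
        exact absurd h (by simp)
  · push Not at hB
    by_cases hL : ∃ v s, lit v s ∈ W
    · obtain ⟨v₀, s₀, hv₀⟩ := hL
      refine ⟨fun x => match x with
        | hub _ => false
        | t j => if ∃ s, lit v₀ s ∈ W ∧ ¬ inc j v₀ s then false else true
        | lit v _ => decide (v = v₀)
        | b _ _ => true, ?_, ?_⟩
      · intro d hd
        have h1 := hI d hd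
        cases d with
        | sa l => exact absurd h1.1 (hh _)
        | sb l => exact absurd h1.2 (hh _)
        | sc v s => exact absurd h1.1 (hh _)
        | sd v s => exact absurd h1.1 (hB v s)
      · intro K hK hnt
        have hnb : ∀ v s, b v s ∉ K := fun v s h => hB v s (hK.sub h)
        have hnh : ∀ k, hub k ∉ K := fun k h => hh k (hK.sub h)
        by_cases ht : ∃ j, t j ∈ K
        · obtain ⟨j, hj⟩ := ht
          -- all other members are literals
          have hlit : ∀ x ∈ K, x ≠ t j → ∃ v s, x = lit v s := by
            intro x hx hxj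
            have h1 := hK.cl _ hx _ hj hxj
            cases x with
            | hub i => exact absurd hx (hnh i)
            | t i => exact absurd h1 (by simp [cadj])
            | lit v s => exact ⟨v, s, rfl⟩
            | b v s => exact absurd hx (hnb v s)
          by_cases hc : ∃ s, lit v₀ s ∈ W ∧ ¬ inc j v₀ s
          · have : ∃ s, lit v₀ s ∈ K := by
              by_contra hno
              push Not at hno
              obtain ⟨s, hs, hsj⟩ := hc
              apply hno s
              refine hK.mx _ hs fun y hy hne => ?_
              by_cases hyj : y = t j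
              · rw [hyj]; exact hsj
              · obtain ⟨v, r, rfl⟩ := hlit y hy hyj
                intro h
                rw [← h] at hy
                exact hno r hy
            obtain ⟨s, hs⟩ := this
            refine ⟨_, hj, _, hs, ?_⟩
            simp only
            rw [if_pos hc]
            simp
          · obtain ⟨x, hx, hxj⟩ := hnt.exists_ne (t j)
            obtain ⟨v, s, rfl⟩ := hlit x hx hxj
            refine ⟨_, hj, _, hx, ?_⟩
            simp only
            rw [if_neg hc]
            have hv : v ≠ v₀ := by
              rintro rfl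
              exact hc ⟨s, hK.sub hx, hK.cl _ hj _ hx (Ne.symm hxj)⟩
            simp [hv]
        · push Not at ht
          have hlit : ∀ x ∈ K, ∃ v s, x = lit v s := by
            intro x hx
            cases x with
            | hub i => exact absurd hx (hnh i)
            | t i => exact absurd hx (ht i)
            | lit v s => exact ⟨v, s, rfl⟩
            | b v s => exact absurd hx (hnb v s)
          have : ∃ s, lit v₀ s ∈ K := by
            by_contra hno
            push Not at hno
            apply hno s₀
            refine hK.mx _ hv₀ fun y hy hne => ?_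
            obtain ⟨v, r, rfl⟩ := hlit y hy
            intro h
            rw [← h] at hy
            exact hno r hy
          obtain ⟨s, hs⟩ := this
          obtain ⟨x, hx, hxs⟩ := hnt.exists_ne (lit v₀ s)
          obtain ⟨v, r, rfl⟩ := hlit x hx
          refine ⟨_, hs, _, hx, ?_⟩
          have hv : v ≠ v₀ := by
            have := hK.cl _ hx _ hs hxs
            exact this
          simp [hv]
    · push Not at hL
      refine ⟨fun _ => false, ?_, ?_⟩
      · intro d hd
        have h1 := hI d hd
        cases d with
        | sa l => exact absurd h1.1 (hh _)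
        | sb l => exact absurd h1.2 (hh _)
        | sc v s => exact absurd h1.1 (hh _)
        | sd v s => exact absurd h1.1 (hB v s)
      · intro K hK hnt
        exfalso
        obtain ⟨x, hx, y, hy, hxy⟩ := hnt
        have h1 := hK.cl x hx y hy hxy
        have ht : ∀ z ∈ K, ∃ j, z = t j := by
          intro z hz
          cases z with
          | hub i => exact absurd (hK.sub hz) (hh i)
          | t i => exact ⟨i, rfl⟩
          | lit v s => exact absurd (hK.sub hz) (hL v s)
          | b v s => exact absurd (hK.sub hz) (hB v s)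
        obtain ⟨i, rfl⟩ := ht x hx
        obtain ⟨j, rfl⟩ := ht y hy
        exact h1

/-- The core can be coloured if the formula is not satisfiable. -/
theorem core_unsat (hm : 0 < m) (hun : ∀ τ : V → Bool, ∃ j, ∀ v s, inc j v s → τ v ≠ s)
    (W : Set (Co V m)) (I : St V m → Prop) (hI : ∀ d, I d → src d ∈ W ∧ tgt d ∈ W) :
    ∃ γ, Fine inc W I γ := by
  classical
  by_cases hlink : ∀ k : Fin m, (∃ i ≤ k.castSucc, hub i ∈ W) →
      (∃ j, k.succ ≤ j ∧ hub j ∈ W) → I (sa k) ∧ I (sb k)
  · by_cases hh : ∃ k, hub k ∈ W
    · obtain ⟨k, hk⟩ := hh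
      by_cases hl : hub (Fin.last m) ∈ W
      · by_cases h0 : hub 0 ∈ W
        · have h1 : ∀ k : Fin m, I (sa k) ∧ I (sb k) := fun k =>
            hlink k ⟨0, Fin.zero_le _, h0⟩ ⟨Fin.last m, Fin.le_last _, hl⟩
          refine case_full hm hun ?_ (fun j => (hI _ (h1 j).1).2)
          intro k
          by_cases hkl : k = Fin.last m
          · rw [hkl]; exact hl
          · have hkm : (k : ℕ) < m := by
              have h2 := k.2
              have h3 : (k : ℕ) ≠ m := fun h => hkl (Fin.ext h)
              omega
            exact (hI _ (h1 ⟨k, hkm⟩).1).1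
        · exact case_no_zero hI hlink h0 hl
      · exact case_no_last hI hlink hl k hk
    · push Not at hh
      exact case_no_hub hI hh
  · push Not at hlink
    obtain ⟨k, ⟨i, hik, hi⟩, ⟨j, hkj, hj⟩, hbr⟩ := hlink
    exact case_broken k i j hi hj hik hkj (fun h => hbr h.1 h.2)

end

end Pool.Agent.K3h89.SD
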