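import Mathlib

set_option autoImplicit false

/-!
# Clique colourings and strongly `k`-divisible graphs
-/

namespace Pool.Agent.K3h89.SD

/-- `c` is a `k`-clique-colouring of `G`: no part of the partition given by `c` contains an
(inclusion-wise) maximal clique of `G` with at least two vertices. -/
def IsCliqueColouring {V : Type*} {k : ℕ} (G : SimpleGraph V) (c : V → Fin k) : Prop :=
  ∀ K : Set V, Maximal G.IsClique K → K.Nontrivial → ∀ i : Fin k, ¬ K ⊆ {v | c v = i}

/-- `G` is strongly `k`-divisible: every induced subgraph has a `k`-clique-colouring. -/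
def StronglyDivisible {V : Type*} (k : ℕ) (G : SimpleGraph V) : Prop :=
  ∀ s : Set V, ∃ c : s → Fin k, IsCliqueColouring (G.induce s) c

end Pool.Agent.K3h89.SD
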