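import Pool.Agent.K3h89.SD.Core
import Pool.Agent.K3h89.SD.Defs

set_option autoImplicit false

/-!
# The reduction graph

Every strong edge `d` of the core gets two further vertices `(d, false)` and `(d, true)`, which form
with the strong edge a cycle of length four.
-/

namespace Pool.Agent.K3h89.SD

variable {V : Type} {m : ℕ}

/-- The vertices of the reduction graph. -/
abbrev Vx (V : Type) (m : ℕ) : Type := Co V m ⊕ (St V m × Bool)

/-- Adjacency in the reduction graph. -/
def gadj (inc : Fin m → V → Bool → Prop) : Vx V m → Vx V m → Prop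
  | .inl x, .inl y => cadj inc x y
  | .inl x, .inr p => (p.2 = false ∧ x = src p.1) ∨ (p.2 = true ∧ x = tgt p.1)
  | .inr p, .inl x => (p.2 = false ∧ x = src p.1) ∨ (p.2 = true ∧ x = tgt p.1)
  | .inr p, .inr q => p.1 = q.1 ∧ p.2 ≠ q.2

/-- The reduction graph. -/
def gr (inc : Fin m → V → Bool → Prop) : SimpleGraph (Vx V m) where
  Adj := gadj inc
  symm := ⟨by
    rintro (x | p) (y | q) h
    · exact cadj_symm inc x y h
    · exact h
    · exact h
    · exact ⟨h.1.symm, h.2.symm⟩⟩
  loopless := ⟨by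
    rintro (x | p) h
    · exact cadj_irrefl inc x h
    · exact h.2 rfl⟩

theorem src_ne_tgt (d : St V m) : src d ≠ tgt d := by
  cases d <;> simp [src, tgt]

/-- From the core to the whole graph. -/
theorem extend {inc : Fin m → V → Bool → Prop} (U : Set (Vx V m)) {γ : Co V m → Bool}
    (hγ : Fine inc {x | Sum.inl x ∈ U} (fun d => Sum.inl (src d) ∈ U ∧ Sum.inl (tgt d) ∈ U ∧
      Sum.inr (d, false) ∈ U ∧ Sum.inr (d, true) ∈ U) γ) :
    ∃ δ : Vx V m → Bool, ∀ K, MaxIn (gadj inc) U K → K.Nontrivial → ∃ u ∈ K, ∃ v ∈ K, δ u ≠ δ v := by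
  classical
  obtain ⟨hst, hcl⟩ := hγ
  let pc : St V m → Bool := fun d => if Sum.inl (src d) ∈ U then !γ (src d) else
    if Sum.inl (tgt d) ∈ U then γ (tgt d) else false
  let qc : St V m → Bool := fun d => if Sum.inl (tgt d) ∈ U then !γ (tgt d) else
    if Sum.inl (src d) ∈ U then γ (src d) else true
  let δ : Vx V m → Bool := fun z => match z with
    | .inl x => γ x
    | .inr (d, false) => pc d
    | .inr (d, true) => qc d
  refine ⟨δ, fun K hK hnt => ?_⟩
  by_cases hp : ∃ p, Sum.inr p ∈ K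
  · obtain ⟨⟨d, i⟩, hd⟩ := hp
    obtain ⟨y, hy, hne⟩ := hnt.exists_ne (Sum.inr (d, i))
    have hadj := hK.cl _ hd _ hy hne.symm
    refine ⟨_, hd, _, hy, ?_⟩
    rcases y with x | ⟨d', i'⟩
    · rcases hadj with ⟨h1, h2⟩ | ⟨h1, h2⟩
      · simp only at h1 h2
        subst h1 h2
        have := hK.sub hy
        simp [δ, pc, this]
      · simp only at h1 h2
        subst h1 h2
        have := hK.sub hy
        simp [δ, qc, this]
    · obtain ⟨h1, h2⟩ := hadj
      simp only at h1 h2
      subst h1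
      have key : Sum.inr (d, false) ∈ U → Sum.inr (d, true) ∈ U → pc d ≠ qc d := by
        intro u1 u2
        simp only [pc, qc]
        by_cases h3 : Sum.inl (src d) ∈ U
        · by_cases h4 : Sum.inl (tgt d) ∈ U
          · have := hst d ⟨h3, h4, u1, u2⟩
            simp [h3, h4, this]
          · simp [h3, h4]
        · by_cases h4 : Sum.inl (tgt d) ∈ U
          · simp [h3, h4]
          · simp [h3, h4]
      cases i <;> cases i'
      · exact absurd rfl h2
      · exact key (hK.sub hd) (hK.sub hy)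
      · exact (key (hK.sub hy) (hK.sub hd)).symm
      · exact absurd rfl h2
  · push Not at hp
    have hall : ∀ z ∈ K, ∃ x, z = Sum.inl x := by
      intro z hz
      rcases z with x | p
      · exact ⟨x, rfl⟩
      · exact absurd hz (hp p)
    have hK' : MaxIn (cadj inc) {x | Sum.inl x ∈ U} {x | Sum.inl x ∈ K} := by
      refine ⟨fun x hx => hK.sub hx, fun x hx y hy hxy => hK.cl _ hx _ hy (fun h => hxy
        (Sum.inl_injective h)), fun x hx h => hK.mx _ hx fun z hz hne => ?_⟩
      obtain ⟨y, rfl⟩ := hall z hz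
      exact h y hz (fun h => hne (by rw [h]))
    have hnt' : {x : Co V m | (Sum.inl x : Vx V m) ∈ K}.Nontrivial := by
      obtain ⟨z, hz, w, hw, hzw⟩ := hnt
      obtain ⟨x, rfl⟩ := hall z hz
      obtain ⟨y, rfl⟩ := hall w hw
      exact ⟨x, hz, y, hw, fun h => hzw (by rw [h])⟩
    obtain ⟨u, hu, v, hv, huv⟩ := hcl _ hK' hnt'
    exact ⟨_, hu, _, hv, huv⟩

/-- Maximal cliques of an induced subgraph. -/
theorem maxIn_of_maximal {W : Type*} {G : SimpleGraph W} {s : Set W} {K : Set s}
    (hK : Maximal (G.induce s).IsClique K) : MaxIn G.Adj s (Subtype.val '' K) := by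
  refine ⟨?_, ?_, ?_⟩
  · rintro _ ⟨x, _, rfl⟩
    exact x.2
  · rintro _ ⟨x, hx, rfl⟩ _ ⟨y, hy, rfl⟩ hxy
    exact hK.prop hx hy (fun h => hxy (by rw [h]))
  · intro x hx h
    have h1 : (G.induce s).IsClique (insert ⟨x, hx⟩ K) := by
      rw [SimpleGraph.isClique_insert]
      refine ⟨hK.prop, fun y hy hne => ?_⟩
      exact h y ⟨y, hy, rfl⟩ (fun h' => hne (Subtype.ext h'))
    have h2 := hK.le_of_ge h1 (Set.subset_insert _ _)
    exact ⟨⟨x, hx⟩, h2 (Set.mem_insert _ _), rfl⟩

/-- A maximal clique of the whole graph. -/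
theorem maximal_of_maxIn {W : Type*} {G : SimpleGraph W} {K : Set W}
    (hK : MaxIn G.Adj Set.univ K) :
    Maximal (G.induce Set.univ).IsClique (Subtype.val ⁻¹' K : Set (Set.univ : Set W)) := by
  constructor
  · intro x hx y hy hxy
    exact hK.cl x.1 hx y.1 hy (fun h => hxy (Subtype.ext h))
  · rintro L hL hKL ⟨x, hx⟩ hxL
    refine hK.mx x trivial fun y hy hxy => ?_
    exact hL hxL (hKL (show (⟨y, trivial⟩ : (Set.univ : Set W)) ∈ _ from hy))
      (fun h => hxy (congrArg Subtype.val h))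

theorem stronglyDivisible_two_iff {W : Type*} (G : SimpleGraph W) :
    (∀ s : Set W, ∃ δ : W → Bool, ∀ K, MaxIn G.Adj s K → K.Nontrivial →
      ∃ u ∈ K, ∃ v ∈ K, δ u ≠ δ v) → StronglyDivisible 2 G := by
  intro h s
  obtain ⟨δ, hδ⟩ := h s
  refine ⟨fun x => if δ x then 1 else 0, fun K hK hnt i hi => ?_⟩
  obtain ⟨u, hu, v, hv, huv⟩ := hδ _ (maxIn_of_maximal hK) (by
    obtain ⟨x, hx, y, hy, hxy⟩ := hnt
    exact ⟨x, ⟨x, hx, rfl⟩, y, ⟨y, hy, rfl⟩, fun h => hxy (Subtype.ext h)⟩)
  obtain ⟨x, hx, rfl⟩ := hu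
  obtain ⟨y, hy, rfl⟩ := hv
  have h1 := hi hx
  have h2 := hi hy
  change (if δ ↑x = true then (1 : Fin 2) else 0) = i at h1
  change (if δ ↑y = true then (1 : Fin 2) else 0) = i at h2
  apply huv
  cases h3 : δ x <;> cases h4 : δ y <;> simp [h3, h4] at h1 h2 <;> first | rfl | (rw [← h1] at h2; simp at h2)

/-- If the formula is not satisfiable then the reduction graph is strongly 2-divisible. -/
theorem unsat {inc : Fin m → V → Bool → Prop} (hm : 0 < m)
    (hun : ∀ τ : V → Bool, ∃ j, ∀ v s, inc j v s → τ v ≠ s) : StronglyDivisible 2 (gr inc) := by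
  apply stronglyDivisible_two_iff
  intro U
  obtain ⟨γ, hγ⟩ := core_unsat hm hun {x | Sum.inl x ∈ U} (fun d => Sum.inl (src d) ∈ U ∧
    Sum.inl (tgt d) ∈ U ∧ Sum.inr (d, false) ∈ U ∧ Sum.inr (d, true) ∈ U)
    (fun d hd => ⟨hd.1, hd.2.1⟩)
  exact extend U hγ

theorem pair_maxIn {W : Type*} {G : SimpleGraph W} {x y : W} (h : G.Adj x y)
    (hno : ∀ z, G.Adj z x → G.Adj z y → False) : MaxIn G.Adj Set.univ {x, y} := by
  refine ⟨fun _ _ => trivial, ?_, ?_⟩
  · rintro u (rfl | hu) v (rfl | hv) huv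
    · exact absurd rfl huv
    · rw [Set.mem_singleton_iff.1 hv]; exact h
    · rw [Set.mem_singleton_iff.1 hu]; exact h.symm
    · rw [Set.mem_singleton_iff.1 hu, Set.mem_singleton_iff.1 hv] at huv
      exact absurd rfl huv
  · intro z _ hz
    by_contra hzK
    simp only [Set.mem_insert_iff, Set.mem_singleton_iff, not_or] at hzK
    exact hno z (hz x (by simp) hzK.1) (hz y (by simp) hzK.2)

/-- If the formula is satisfiable then the reduction graph has no 2-clique-colouring. -/
theorem sat {inc : Fin m → V → Bool → Prop} (hm : 0 < m)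
    (τ : V → Bool) (hτ : ∀ j, ∃ v, inc j v (τ v)) : ¬ StronglyDivisible 2 (gr inc) := by
  intro hsd
  obtain ⟨c, hc⟩ := hsd Set.univ
  -- a colouring of the vertices
  have main : ∀ K : Set (Vx V m), MaxIn (gr inc).Adj Set.univ K → K.Nontrivial →
      ∃ u ∈ K, ∃ v ∈ K, c ⟨u, trivial⟩ ≠ c ⟨v, trivial⟩ := by
    intro K hK hnt
    by_contra hno
    push Not at hno
    obtain ⟨x, hx, y, hy, hxy⟩ := hnt
    refine hc _ (maximal_of_maxIn hK) ⟨⟨x, trivial⟩, hx, ⟨y, trivial⟩, hy, fun h => hxy
      (congrArg Subtype.val h)⟩ (c ⟨x, trivial⟩) ?_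
    rintro ⟨z, hz⟩ hzK
    exact (hno x hx z hzK).symm
  set δ : Vx V m → Fin 2 := fun z => c ⟨z, trivial⟩ with hδ
  have edge : ∀ x y, (gr inc).Adj x y → (∀ z, (gr inc).Adj z x → (gr inc).Adj z y → False) →
      δ x ≠ δ y := by
    intro x y h hno
    obtain ⟨u, hu, v, hv, huv⟩ := main _ (pair_maxIn h hno) ⟨x, by simp, y, by simp, h.ne⟩
    rcases hu with rfl | hu <;> rcases hv with rfl | hv
    · exact absurd rfl huv
    · rw [Set.mem_singleton_iff.1 hv] at huv; exact huv
    · rw [Set.mem_singleton_iff.1 hu] at huv; exact huv.symm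
    · rw [Set.mem_singleton_iff.1 hu, Set.mem_singleton_iff.1 hv] at huv
      exact absurd rfl huv
  have strong : ∀ d : St V m, δ (.inl (src d)) ≠ δ (.inl (tgt d)) := by
    intro d
    have hst := src_ne_tgt d
    have e1 : δ (.inl (src d)) ≠ δ (.inr (d, false)) := by
      refine edge _ _ (Or.inl ⟨rfl, rfl⟩) ?_
      rintro (x | ⟨d', i⟩) h1 h2
      · rcases h2 with ⟨h3, h4⟩ | ⟨h3, h4⟩
        · simp only at h3 h4
          subst h4
          exact cadj_irrefl inc _ h1
        · exact absurd h3 (by simp)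
      · obtain ⟨h3, h4⟩ := h2
        simp only at h3 h4
        subst h3
        rcases h1 with ⟨h5, h6⟩ | ⟨h5, h6⟩
        · exact h4 h5
        · exact hst h6
    have e2 : δ (.inr (d, false)) ≠ δ (.inr (d, true)) := by
      refine edge _ _ ⟨rfl, by simp⟩ ?_
      rintro (x | ⟨d', i⟩) h1 h2
      · rcases h1 with ⟨h3, h4⟩ | ⟨h3, h4⟩
        · rcases h2 with ⟨h5, h6⟩ | ⟨h5, h6⟩
          · exact absurd h5 (by simp)
          · simp only at h4 h6
            exact hst (h4.symm.trans h6)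
        · exact absurd h3 (by simp)
      · have a1 := h1.2
        have a2 := h2.2
        cases i
        · exact a1 rfl
        · exact a2 rfl
    have e3 : δ (.inr (d, true)) ≠ δ (.inl (tgt d)) := by
      refine edge _ _ (Or.inr ⟨rfl, rfl⟩) ?_
      rintro (x | ⟨d', i⟩) h2 h1
      · rcases h2 with ⟨h3, h4⟩ | ⟨h3, h4⟩
        · exact absurd h3 (by simp)
        · simp only at h3 h4
          subst h4
          exact cadj_irrefl inc _ h1
      · obtain ⟨h3, h4⟩ := h2
        simp only at h3 h4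
        subst h3
        rcases h1 with ⟨h5, h6⟩ | ⟨h5, h6⟩
        · exact hst h6.symm
        · exact h4 h5
    generalize δ (.inl (src d)) = a at *
    generalize δ (.inr (d, false)) = a2 at *
    generalize δ (.inr (d, true)) = a3 at *
    generalize δ (.inl (tgt d)) = a4 at *
    revert a a2 a3 a4
    decide
  have two : ∀ a b c : Fin 2, a ≠ b → b ≠ c → a = c := by decide
  -- all hubs have the same colour
  have hub : ∀ k : ℕ, ∀ hk : k < m + 1, δ (.inl (Co.hub ⟨k, hk⟩)) = δ (.inl (Co.hub 0)) := by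
    intro k
    induction k with
    | zero => intro hk; rfl
    | succ k ih =>
      intro hk
      have h1 := strong (St.sa ⟨k, by omega⟩)
      have h2 := strong (St.sb ⟨k, by omega⟩)
      rw [← ih (by omega)]
      exact (two _ _ _ h1 h2).symm
  have hlast := hub m (by omega)
  have lit : ∀ v s, δ (.inl (Co.lit v s)) = δ (.inl (Co.hub 0)) := by
    intro v s
    have h1 := strong (St.sc v s)
    have h2 := strong (St.sd v s)
    rw [← hlast]
    exact (two _ _ _ h1 h2).symm
  have h0l : (0 : Fin (m + 1)) ≠ Fin.last m := by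
    intro h
    have := congrArg Fin.val h
    simp at this
    omega
  -- the monochromatic maximal clique
  have hK : MaxIn (gr inc).Adj Set.univ {z : Vx V m | (∃ k, z = .inl (Co.hub k)) ∨
      ∃ v, z = .inl (Co.lit v (τ v))} := by
    refine ⟨fun _ _ => trivial, ?_, ?_⟩
    · rintro _ (⟨k, rfl⟩ | ⟨v, rfl⟩) _ (⟨l, rfl⟩ | ⟨w, rfl⟩) hne
      · exact fun h => hne (by rw [h])
      · trivial
      · trivial
      · exact fun h => hne (by rw [h])
    · intro z _ hz
      rcases z with x | ⟨d, i⟩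
      · cases x with
        | hub k => exact Or.inl ⟨k, rfl⟩
        | t j =>
          obtain ⟨v, hv⟩ := hτ j
          exact absurd hv (hz (.inl (Co.lit v (τ v))) (Or.inr ⟨v, rfl⟩) (by simp))
        | lit v s =>
          right
          by_cases hs : s = τ v
          · exact ⟨v, by rw [hs]⟩
          · exact absurd rfl (hz (.inl (Co.lit v (τ v))) (Or.inr ⟨v, rfl⟩) (by simpa using hs))
        | b v s => exact absurd rfl (hz (.inl (Co.hub 0)) (Or.inl ⟨0, rfl⟩) (by simp))
      · exfalso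
        have h1 := hz (.inl (Co.hub 0)) (Or.inl ⟨0, rfl⟩) (by simp)
        have h2 := hz (.inl (Co.hub (Fin.last m))) (Or.inl ⟨_, rfl⟩) (by simp)
        rcases h1 with ⟨h3, h4⟩ | ⟨h3, h4⟩ <;> rcases h2 with ⟨h5, h6⟩ | ⟨h5, h6⟩
        · rw [← h4] at h6
          simp only [Co.hub.injEq] at h6
          exact h0l h6.symm
        · simp only at h3 h5
          rw [h3] at h5
          exact absurd h5 (by simp)
        · simp only at h3 h5
          rw [h3] at h5
          exact absurd h5 (by simp)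
        · rw [← h4] at h6
          simp only [Co.hub.injEq] at h6
          exact h0l h6.symm
  obtain ⟨u, hu, v, hv, huv⟩ := main _ hK ⟨.inl (Co.hub 0), Or.inl ⟨0, rfl⟩,
    .inl (Co.hub (Fin.last m)), Or.inl ⟨_, rfl⟩, by simpa using h0l⟩
  have all : ∀ z : Vx V m, ((∃ k, z = .inl (Co.hub k)) ∨ ∃ v, z = .inl (Co.lit v (τ v))) →
      δ z = δ (.inl (Co.hub 0)) := by
    rintro _ (⟨k, rfl⟩ | ⟨v, rfl⟩)
    · exact hub k k.2
    · exact lit _ _
  exact huv ((all u hu).trans (all v hv).symm)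

end Pool.Agent.K3h89.SD
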