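import Pool.Agent.K3h89.SD.Code

set_option autoImplicit false

/-!
# Hardness
-/

namespace Pool.Agent.K3h89.SD

open Pool.Agent.NPC Pool.Agent.H622R2 Pool.Agent.H692R2

section

variable (φ : List Cl3)

theorem mem_vl (v : ℕ) : v ∈ vl φ ↔ ∃ c ∈ φ, v = c.1.2 ∨ v = c.2.1.2 ∨ v = c.2.2.2 := by
  unfold vl
  rw [mem_ddup]
  simp

/-- The variables of the formula. -/
abbrev Vr : Type := {v // v ∈ vl φ}

/-- The literal `(v, s)` occurs in clause `j`. -/
def inc (j : Fin φ.length) (v : Vr φ) (s : Bool) : Prop := occ (s, v.1) φ[j] = true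

/-- Labels of core vertices. -/
def lab : Co (Vr φ) φ.length → Lab
  | .hub k => hubL k
  | .t j => tL j φ[j]
  | .lit v s => litL v.1 s
  | .b v s => bL v.1 s

theorem lab_inj : Function.Injective (lab φ) := by
  intro x y h
  cases x <;> cases y <;> simp only [lab, hubL, tL, litL, bL, Prod.mk.injEq, OfNat.zero_ne_ofNat,
    OfNat.ofNat_ne_zero, OfNat.ofNat_ne_one, OfNat.one_ne_ofNat,
    Nat.reduceEqDiff, zero_ne_one, one_ne_zero, false_and, true_and, and_true] at h
  · rw [Fin.val_inj] at h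
    rw [h]
  · rw [Fin.val_inj] at h
    rw [h.1]
  · rw [Subtype.val_inj] at h
    rw [h.1, h.2]
  · rw [Subtype.val_inj] at h
    rw [h.1, h.2]

/-- Labels. -/
def cL : Vx (Vr φ) φ.length → Lam
  | .inl a => (lab φ a, lab φ a, false)
  | .inr p => (lab φ (src p.1), lab φ (tgt p.1), p.2)

theorem src_tgt_inj {V : Type} {m : ℕ} (d d' : St V m) (h : src d = src d')
    (h' : tgt d = tgt d') : d = d' := by
  cases d <;> cases d' <;> simp_all [src, tgt]

theorem cL_inj : Function.Injective (cL φ) := by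
  rintro (a | ⟨d, i⟩) (b | ⟨d', i'⟩) h
  · simp only [cL, Prod.mk.injEq, and_true, and_self] at h
    rw [lab_inj φ h]
  · simp only [cL, Prod.mk.injEq] at h
    exact absurd (lab_inj φ (h.1.symm.trans h.2.1)) (src_ne_tgt d')
  · simp only [cL, Prod.mk.injEq] at h
    exact absurd (lab_inj φ (h.1.trans h.2.1.symm)) (src_ne_tgt d)
  · simp only [cL, Prod.mk.injEq] at h
    rw [src_tgt_inj d d' (lab_inj φ h.1) (lab_inj φ h.2.1), h.2.2]

theorem coB_iff (a b : Lab) : coB a b = true ↔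
    (a.1 = 0 ∧ b.1 = 0 ∧ a.2.1 ≠ b.2.1) ∨ (a.1 = 0 ∧ b.1 = 1) ∨ (a.1 = 0 ∧ b.1 = 2) ∨
    (a.1 = 0 ∧ b.1 = 3 ∧ a.2.1 ≠ 0) ∨ (a.1 = 2 ∧ b.1 = 2 ∧ a.2.1 ≠ b.2.1) ∨
    (a.1 = 2 ∧ b.1 = 3) ∨ (a.1 = 1 ∧ b.1 = 2 ∧ ¬ occ (b.2.2.1, b.2.1) a.2.2.2 = true) := by
  unfold coB
  simp only [Bool.or_eq_true, Bool.and_eq_true, decide_eq_true_eq, Bool.not_eq_true',
    decide_eq_false_iff_not, ne_eq, Bool.not_eq_true]

theorem val_ne_iff {n : ℕ} (i j : Fin n) : (i : ℕ) ≠ (j : ℕ) ↔ i ≠ j := by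
  rw [Ne, Fin.val_inj]

theorem val_ne_zero_iff {n : ℕ} (i : Fin (n + 1)) : (i : ℕ) ≠ 0 ↔ i ≠ 0 :=
  val_ne_iff i 0

theorem coB_lab (x y : Co (Vr φ) φ.length) :
    (coB (lab φ x) (lab φ y) || coB (lab φ y) (lab φ x)) = true ↔ cadj (inc φ) x y := by
  rw [Bool.or_eq_true, coB_iff, coB_iff]
  cases x with
  | hub i =>
    cases y with
    | hub j =>
      have h1 := val_ne_iff i j
      have h2 := val_ne_iff j i
      simp only [lab, hubL, cadj]
      constructor
      · rintro ((⟨_, _, h⟩ | h | h | h | h | h | h) | (⟨_, _, h⟩ | h | h | h | h | h | h)) <;>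
          first | exact h1.1 h | exact (h2.1 h).symm | (exfalso; omega)
      · intro h
        exact Or.inl (Or.inl ⟨trivial, trivial, h1.2 h⟩)
    | t j => simp [lab, hubL, tL, cadj]
    | lit w r => simp [lab, hubL, litL, cadj]
    | b w r =>
      have h1 := val_ne_zero_iff i
      simp only [lab, hubL, bL, cadj]
      constructor
      · rintro ((h | h | h | ⟨_, _, h⟩ | h | h | h) | (h | h | h | h | h | h | h)) <;>
          first | exact h1.1 h | (exfalso; omega)
      · intro h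
        exact Or.inl (Or.inr (Or.inr (Or.inr (Or.inl ⟨trivial, trivial, h1.2 h⟩))))
  | t i =>
    cases y with
    | hub j => simp [lab, hubL, tL, cadj]
    | t j => simp [lab, tL, cadj]
    | lit w r => simp [lab, tL, litL, cadj, inc]
    | b w r => simp [lab, tL, bL, cadj]
  | lit v s =>
    cases y with
    | hub j => simp [lab, hubL, litL, cadj]
    | t j => simp [lab, tL, litL, cadj, inc]
    | lit w r =>
      have h1 : v.1 ≠ w.1 ↔ v ≠ w := by rw [Ne, Subtype.val_inj]
      have h2 : w.1 ≠ v.1 ↔ w ≠ v := by rw [Ne, Subtype.val_inj]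
      simp only [lab, litL, cadj]
      constructor
      · rintro ((h | h | h | h | ⟨_, _, h⟩ | h | h) | (h | h | h | h | ⟨_, _, h⟩ | h | h)) <;>
          first | exact h1.1 h | exact (h2.1 h).symm | (exfalso; omega)
      · intro h
        exact Or.inl (Or.inr (Or.inr (Or.inr (Or.inr (Or.inl ⟨trivial, trivial, h1.2 h⟩)))))
    | b w r => simp [lab, litL, bL, cadj]
  | b v s =>
    cases y with
    | hub j =>
      have h1 := val_ne_zero_iff j
      simp only [lab, hubL, bL, cadj]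
      constructor
      · rintro ((h | h | h | h | h | h | h) | (h | h | h | ⟨_, _, h⟩ | h | h | h)) <;>
          first | exact h1.1 h | (exfalso; omega)
      · intro h
        exact Or.inr (Or.inr (Or.inr (Or.inr (Or.inl ⟨trivial, trivial, h1.2 h⟩))))
    | t j => simp [lab, tL, bL, cadj]
    | lit w r => simp [lab, litL, bL, cadj]
    | b w r => simp [lab, bL, cadj]

theorem adjB_cc (a b : Lab) : adjB (a, a, false) (b, b, false) = (coB a b || coB b a) := by
  simp [adjB]

theorem adjB_cs (a b c : Lab) (i : Bool) (h : b ≠ c) :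
    adjB (a, a, false) (b, c, i) = bif i then decide (a = c) else decide (a = b) := by
  simp [adjB, h]

theorem adjB_sc (a b c : Lab) (i : Bool) (h : b ≠ c) :
    adjB (b, c, i) (a, a, false) = bif i then decide (a = c) else decide (a = b) := by
  simp [adjB, h]

theorem adjB_ss (b c b' c' : Lab) (i i' : Bool) (h : b ≠ c) (h' : b' ≠ c') :
    adjB (b, c, i) (b', c', i') =
      (decide (b = b') && (decide (c = c') && !decide (i = i'))) := by
  simp [adjB, h, h']

theorem adjB_cL (v w : Vx (Vr φ) φ.length) :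
    adjB (cL φ v) (cL φ w) = true ↔ (gr (inc φ)).Adj v w := by
  have hinj : ∀ a b, lab φ a = lab φ b ↔ a = b := fun a b => (lab_inj φ).eq_iff
  have hne : ∀ d : St (Vr φ) φ.length, lab φ (src d) ≠ lab φ (tgt d) := fun d => by
    rw [Ne, hinj]; exact src_ne_tgt d
  rcases v with x | ⟨d, i⟩ <;> rcases w with y | ⟨d', i'⟩
  · simp only [cL]
    rw [adjB_cc]
    exact coB_lab φ x y
  · simp only [cL]
    rw [adjB_cs _ _ _ _ (hne d')]
    cases i' with
    | false =>
      simp only [cond_false, decide_eq_true_iff, hinj, gr, gadj]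
      try simp
    | true =>
      simp only [cond_true, decide_eq_true_iff, hinj, gr, gadj]
      try simp
  · simp only [cL]
    rw [adjB_sc _ _ _ _ (hne d)]
    cases i with
    | false =>
      simp only [cond_false, decide_eq_true_iff, hinj, gr, gadj]
      try simp
    | true =>
      simp only [cond_true, decide_eq_true_iff, hinj, gr, gadj]
      try simp
  · simp only [cL]
    rw [adjB_ss _ _ _ _ _ _ (hne d) (hne d')]
    simp only [Bool.and_eq_true, decide_eq_true_iff, hinj, Bool.not_eq_true',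
      decide_eq_false_iff_not, gr, gadj]
    constructor
    · rintro ⟨h1, h2, h3⟩
      exact ⟨src_tgt_inj d d' h1 h2, h3⟩
    · rintro ⟨rfl, h3⟩
      exact ⟨rfl, rfl, h3⟩

theorem mem_zipIdx' {α : Type} {l : List α} {a : α} {i : ℕ} :
    (a, i) ∈ l.zipIdx ↔ ∃ h : i < l.length, l[i] = a := by
  rw [List.mem_zipIdx_iff_getElem?]
  constructor
  · intro h
    obtain ⟨h1, h2⟩ := List.getElem?_eq_some_iff.1 h
    exact ⟨h1, h2⟩
  · rintro ⟨h1, h2⟩
    exact List.getElem?_eq_some_iff.2 ⟨h1, h2⟩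

theorem mem_coreL (p : Lab) : p ∈ coreL φ ↔ ∃ a, lab φ a = p := by
  unfold coreL
  simp only [List.mem_append, List.mem_map, List.mem_range, List.mem_flatMap, List.mem_cons,
    List.not_mem_nil, or_false]
  constructor
  · rintro (⟨k, hk, rfl⟩ | ⟨⟨c, j⟩, hq, rfl⟩ | ⟨v, hv, rfl | rfl | rfl | rfl⟩)
    · exact ⟨.hub ⟨k, hk⟩, rfl⟩
    · obtain ⟨h1, h2⟩ := mem_zipIdx'.1 hq
      refine ⟨.t ⟨j, h1⟩, ?_⟩
      simp only [lab]
      rw [← h2]
      rfl
    · exact ⟨.lit ⟨v, hv⟩ false, rfl⟩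
    · exact ⟨.lit ⟨v, hv⟩ true, rfl⟩
    · exact ⟨.b ⟨v, hv⟩ false, rfl⟩
    · exact ⟨.b ⟨v, hv⟩ true, rfl⟩
  · rintro ⟨a, rfl⟩
    cases a with
    | hub k => exact Or.inl ⟨k, k.2, rfl⟩
    | t j => exact Or.inr (Or.inl ⟨(φ[j], j), mem_zipIdx'.2 ⟨j.2, rfl⟩, rfl⟩)
    | lit v s => exact Or.inr (Or.inr ⟨v.1, v.2, by cases s <;> simp [lab]⟩)
    | b v s => exact Or.inr (Or.inr ⟨v.1, v.2, by cases s <;> simp [lab]⟩)

theorem mem_stL (p : Lab × Lab) : p ∈ stL φ ↔ ∃ d, (lab φ (src d), lab φ (tgt d)) = p := by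
  unfold stL
  simp only [List.mem_append, List.mem_flatMap, List.mem_cons, List.not_mem_nil, or_false]
  constructor
  · rintro (⟨⟨c, j⟩, hq, h⟩ | ⟨v, hv, h⟩)
    · obtain ⟨h1, h2⟩ := mem_zipIdx'.1 hq
      rcases h with rfl | rfl
      · refine ⟨.sa ⟨j, h1⟩, ?_⟩
        simp only [src, tgt, lab]
        rw [← h2]
        rfl
      · refine ⟨.sb ⟨j, h1⟩, ?_⟩
        simp only [src, tgt, lab]
        rw [← h2]
        rfl
    · rcases h with rfl | rfl | rfl | rfl
      · exact ⟨.sc ⟨v, hv⟩ false, by simp [src, tgt, lab]⟩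
      · exact ⟨.sc ⟨v, hv⟩ true, by simp [src, tgt, lab]⟩
      · exact ⟨.sd ⟨v, hv⟩ false, by simp [src, tgt, lab]⟩
      · exact ⟨.sd ⟨v, hv⟩ true, by simp [src, tgt, lab]⟩
  · rintro ⟨d, rfl⟩
    cases d with
    | sa j => exact Or.inl ⟨(φ[j], j), mem_zipIdx'.2 ⟨j.2, rfl⟩, Or.inl rfl⟩
    | sb j => exact Or.inl ⟨(φ[j], j), mem_zipIdx'.2 ⟨j.2, rfl⟩, Or.inr rfl⟩
    | sc v s => exact Or.inr ⟨v.1, v.2, by cases s <;> simp [src, tgt, lab]⟩
    | sd v s => exact Or.inr ⟨v.1, v.2, by cases s <;> simp [src, tgt, lab]⟩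

theorem mem_vs (z : Lam) : z ∈ vs φ ↔ ∃ v, cL φ v = z := by
  unfold vs
  rw [mem_ddup, List.mem_append, List.mem_map, List.mem_flatMap]
  constructor
  · rintro (⟨a, ha, rfl⟩ | ⟨p, hp, h⟩)
    · obtain ⟨x, rfl⟩ := (mem_coreL φ a).1 ha
      exact ⟨.inl x, rfl⟩
    · obtain ⟨d, rfl⟩ := (mem_stL φ p).1 hp
      simp only [List.mem_cons, List.not_mem_nil, or_false] at h
      rcases h with rfl | rfl
      · exact ⟨.inr (d, false), rfl⟩
      · exact ⟨.inr (d, true), rfl⟩
  · rintro ⟨a | ⟨d, i⟩, rfl⟩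
    · exact Or.inl ⟨lab φ a, (mem_coreL φ _).2 ⟨a, rfl⟩, rfl⟩
    · exact Or.inr ⟨_, (mem_stL φ _).2 ⟨d, rfl⟩, by cases i <;> simp [cL]⟩

theorem adjB_symm (p q : Lam) : adjB p q = adjB q p := by
  unfold adjB
  by_cases hp : p.1 = p.2.1 <;> by_cases hq : q.1 = q.2.1 <;>
    simp only [hp, hq, decide_true, decide_false, cond_true, cond_false, Bool.or_comm]
  congr 1
  · rw [decide_eq_decide]; exact eq_comm
  · congr 1
    · rw [decide_eq_decide]; exact eq_comm
    · congr 1
      rw [decide_eq_decide]; exact eq_comm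

theorem coB_irrefl (a : Lab) : coB a a = false := by
  rw [← Bool.not_eq_true, coB_iff]
  rintro (⟨_, _, h⟩ | ⟨h, h'⟩ | ⟨h, h'⟩ | ⟨h, h', _⟩ | ⟨_, _, h⟩ | ⟨h, h'⟩ | ⟨h, h', _⟩)
  · exact h rfl
  · omega
  · omega
  · omega
  · exact h rfl
  · omega
  · omega

theorem adjB_irrefl (p : Lam) : adjB p p = false := by
  unfold adjB
  by_cases hp : p.1 = p.2.1
  · simp [hp, coB_irrefl]
  · simp [hp]

/-- The graph produced by the reduction. -/
def outG : SimpleGraph (Fin (vs φ).length) := R671.listGraph (vs φ) adjB adjB_symm adjB_irrefl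

theorem exists_iso : Nonempty (outG φ ≃g gr (inc φ)) := by
  obtain ⟨e, he⟩ := R671.exists_equiv (vs φ) (ddup_nodup _) (cL φ) (cL_inj φ) (mem_vs φ)
  refine ⟨⟨e, ?_⟩⟩
  intro i j
  rw [← adjB_cL, he, he]
  rfl

end

section Iso

variable {V W : Type*} {G : SimpleGraph V} {H : SimpleGraph W}

theorem StronglyDivisible.iso {k : ℕ} (e : G ≃g H) (h : StronglyDivisible k G) :
    StronglyDivisible k H := by
  intro s
  obtain ⟨c, hc⟩ := h (e ⁻¹' s)
  refine ⟨fun y => c ⟨e.symm y.1, by simp⟩, fun K hK hnt i hi => ?_⟩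
  -- the preimage of `K`
  have hmem : ∀ x : V, (hx : x ∈ e ⁻¹' s) → ∀ y : s, e x = y.1 → (y = ⟨e x, hx⟩) := by
    intro x hx y h
    exact Subtype.ext h.symm
  have hK' : Maximal (G.induce (e ⁻¹' s)).IsClique {x | (⟨e x.1, x.2⟩ : s) ∈ K} := by
    constructor
    · intro x hx y hy hxy
      have h1 := hK.prop hx hy (fun h => hxy (Subtype.ext (e.injective (congrArg Subtype.val h))))
      exact e.map_rel_iff.1 h1
    · intro L hL hKL x hx
      have h1 : (H.induce s).IsClique (insert (⟨e x.1, x.2⟩ : s) K) := by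
        rw [SimpleGraph.isClique_insert]
        refine ⟨hK.prop, fun y hy hne => ?_⟩
        have hy' : (⟨e.symm y.1, by simp⟩ : (e ⁻¹' s : Set V)) ∈ L := by
          apply hKL
          have : (⟨e (e.symm y.1), by simp⟩ : s) = y := Subtype.ext (by simp)
          show (⟨e (e.symm y.1), _⟩ : s) ∈ K
          rw [this]
          exact hy
        have h2 := hL hx hy' (by
          intro h
          apply hne
          apply Subtype.ext
          have := congrArg Subtype.val h
          simp only at this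
          simp [this])
        have h3 : G.Adj x.1 (e.symm y.1) := h2
        have h4 := e.map_rel_iff.2 h3
        simpa using h4
      have h2 := hK.le_of_ge h1 (Set.subset_insert _ _)
      exact h2 (Set.mem_insert _ _)
  refine hc _ hK' ?_ i ?_
  · obtain ⟨x, hx, y, hy, hxy⟩ := hnt
    refine ⟨⟨e.symm x.1, by simp⟩, ?_, ⟨e.symm y.1, by simp⟩, ?_, ?_⟩
    · show (⟨e (e.symm x.1), _⟩ : s) ∈ K
      have : (⟨e (e.symm x.1), by simp⟩ : s) = x := Subtype.ext (by simp)
      rw [this]; exact hx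
    · show (⟨e (e.symm y.1), _⟩ : s) ∈ K
      have : (⟨e (e.symm y.1), by simp⟩ : s) = y := Subtype.ext (by simp)
      rw [this]; exact hy
    · intro h
      have := congrArg Subtype.val h
      simp only [EmbeddingLike.apply_eq_iff_eq] at this
      exact hxy (Subtype.ext this)
  · intro x hx
    have h1 := hi hx
    have h2 : c ⟨e.symm (e x.1), by simp⟩ = i := h1
    have h3 : (⟨e.symm (e x.1), by simp⟩ : (e ⁻¹' s : Set V)) = x := Subtype.ext (by simp)
    rw [h3] at h2
    exact h2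

end Iso

/-- Correctness of the reduction, for nonempty formulas. -/
theorem out_correct (φ : List Cl3) (hφ : φ ≠ []) : Sat3 φ ↔ ¬ StronglyDivisible 2 (outG φ) := by
  obtain ⟨e⟩ := exists_iso φ
  have h1 : StronglyDivisible 2 (outG φ) ↔ StronglyDivisible 2 (gr (inc φ)) := ⟨.iso e, .iso e.symm⟩
  have hm : 0 < φ.length := List.length_pos_iff.2 hφ
  rw [h1]
  constructor
  · rintro ⟨τ, hτ⟩
    refine sat hm (fun v => τ v.1) (fun j => ?_)
    have hmem := List.getElem_mem (l := φ) j.2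
    rcases hτ _ hmem with h | h | h
    · exact ⟨⟨_, (mem_vl φ _).2 ⟨_, hmem, Or.inl rfl⟩⟩, by simp [inc, occ, h]⟩
    · exact ⟨⟨_, (mem_vl φ _).2 ⟨_, hmem, Or.inr (Or.inl rfl)⟩⟩, by simp [inc, occ, h]⟩
    · exact ⟨⟨_, (mem_vl φ _).2 ⟨_, hmem, Or.inr (Or.inr rfl)⟩⟩, by simp [inc, occ, h]⟩
  · intro hn
    by_contra hsat
    apply hn
    refine unsat hm (fun τ => ?_)
    by_contra hcon
    push Not at hcon
    apply hsat
    classical
    refine ⟨fun n => if h : n ∈ vl φ then τ ⟨n, h⟩ else false, fun c hc => ?_⟩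
    obtain ⟨j, hj, rfl⟩ := List.getElem_of_mem hc
    obtain ⟨v, s, hinc, hvs⟩ := hcon ⟨j, hj⟩
    have h2 : occ (s, v.1) φ[j] = true := hinc
    unfold occ at h2
    simp only [Bool.or_eq_true, decide_eq_true_eq] at h2
    have h3 : (if h : v.1 ∈ vl φ then τ ⟨v.1, h⟩ else false) = s := by
      rw [dif_pos v.2]; exact hvs
    rcases h2 with h2 | h2 | h2
    · left; rw [← h2]; exact h3
    · right; left; rw [← h2]; exact h3
    · right; right; rw [← h2]; exact h3

/-- The reduction: a clause which always holds is added first. -/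
noncomputable def outF (φ : List Cl3) : FinGraph :=
  ⟨(vs (((true, 0), (false, 0), (false, 0)) :: φ)).length,
    outG (((true, 0), (false, 0), (false, 0)) :: φ)⟩

theorem poly_adjB2 : Poly (fun p : Lam × Lam => adjB p.1 p.2) :=
  poly_adjB (by fun_prop) (by fun_prop)

theorem poly_outF : Poly outF := by
  have h1 : Poly (fun φ : List Cl3 => vs (((true, 0), (false, 0), (false, 0)) :: φ)) :=
    poly_vs (by fun_prop)
  exact Pool.Agent.H515R2.PP.poly_listFin h1 poly_adjB2

theorem outF_correct (φ : List Cl3) : Sat3 φ ↔ ¬ StronglyDivisible 2 (outF φ).graph := by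
  have h := out_correct (((true, 0), (false, 0), (false, 0)) :: φ) (by simp)
  unfold outF
  simp only
  rw [← h]
  unfold Sat3
  refine exists_congr fun τ => ?_
  simp only [List.mem_cons, forall_eq_or_imp]
  constructor
  · intro h
    refine ⟨?_, h⟩
    cases τ 0 <;> simp
  · exact fun h => h.2

theorem hardI_not : HardI (fun G : FinGraph => ¬ StronglyDivisible 2 G.graph) :=
  (show HardI Sat3 from hardI_SAT3).trans poly_outF outF_correct

end Pool.Agent.K3h89.SD
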