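import Pool.Agent.K3h89.SX.Stm

/-!
# Project SD (helper89): progressions with the SAME difference on both sides of every square

`Fs s x = x (x + s)`.
-/

set_option autoImplicit false

open Finset

namespace Pool.Agent.K3h89.SD

open Pool.Agent.K3h89.SX (sg)
open Pool.Agent.K3h89.SZ (SysP CF)
open Pool.Agent.Y677.RSZ (rt V)

/-- the function `x (x + s)` -/
def Fs (s : ℕ) (x : ℤ) : ℤ := x * (x + s)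

/-- (AVG) the mean of the singular series over short intervals -/
def S_AVG : Prop := ∃ C : ℝ, 0 < C ∧ ∀ S₀ L : ℕ, 1 ≤ L → S₀ + L ≤ L ^ 2 →
  ∑ s ∈ Ioc S₀ (S₀ + L), sg s ≤ C * L

/-- (PAIR) Szemerédi's theorem for the `x` such that `x (x + s)` has no small prime factor -/
def S_PAIR : Prop := ∀ (k : ℕ) (δ κ : ℝ), 0 < δ → 0 < κ → ∃ B H₀ : ℕ, ∀ H : ℕ, H₀ ≤ H →
  ∀ s Y : ℕ, Even s → H ≤ s → s ≤ H ^ 2 → Y ≤ H ^ 4 → ∀ A : Finset ℕ, A ⊆ Ioc Y (Y + H) →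
  (∀ n ∈ A, ∀ p : ℕ, p.Prime → (p : ℝ) ≤ (H : ℝ) ^ δ → ¬ p ∣ n * (n + s)) →
  κ * (sg s * (H / Real.log H ^ 2)) ≤ A.card →
  ∃ a d : ℕ, 1 ≤ d ∧ (d : ℝ) ≤ Real.log H ^ B ∧ ∀ i < k, a + i * d ∈ A

open Classical in
/-- (TWO) two dense sets at a distance contain progressions with the same difference -/
def S_TWO : Prop := ∀ (k : ℕ) (δ κ : ℝ), 0 < δ → 0 < κ → ∃ B n₀ : ℕ, ∀ n : ℕ, n₀ ≤ n →
  ∀ A₁ A₂ : Finset ℕ, (∀ x ∈ A₁, n ^ 2 - n < x ∧ x < n ^ 2) → (∀ x ∈ A₂, n ^ 2 < x ∧ x < n ^ 2 + n) →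
  (∀ x ∈ A₁ ∪ A₂, ∀ p : ℕ, p.Prime → p ∣ x → (n : ℝ) ^ δ ≤ p) →
  κ * (n / Real.log n) ≤ A₁.card → κ * (n / Real.log n) ≤ A₂.card →
  ∃ a₁ a₂ d : ℕ, 1 ≤ d ∧ (d : ℝ) ≤ Real.log n ^ B ∧ ∀ i < k, a₁ + i * d ∈ A₁ ∧ a₂ + i * d ∈ A₂

end Pool.Agent.K3h89.SD
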