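import Pool.Agent.K3h89.SX.Top
import Pool.Agent.K3h89.SX.MOM
import Pool.Agent.K3h89.SZ.Base
import Pool.Agent.K3h89.SD.Stm

/-! Project SD (helper89): Szemerédi's theorem for `x (x + s)` -/

set_option autoImplicit false

open Finset Filter

namespace Pool.Agent.K3h89.SD

open Pool.Agent.TH423.SH (PS)
open Pool.Agent.Y677.RSZ (rt V)
open Pool.Agent.K3h89.SZ (SysP CF strip S_STRIP)
open Pool.Agent.K3h89.SX (sg Fl S_ENGX S_SYSX S_BADX S_LARX S_VX)

theorem dvd_Fs (s p : ℕ) (x : ℤ) : (p : ℤ) ∣ Fs s x ↔ (p : ℤ) ∣ Fl s (-x) := by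
  have e : Fs s x = - Fl s (-x) := by
    unfold Fs Fl
    ring
  rw [e, dvd_neg]

theorem CF_Fs (s h p : ℕ) (hc : CF (Fs s) h p) : CF (Fl s) h p := by
  obtain ⟨x, h1, h2⟩ := hc
  refine ⟨-(x + h), (dvd_Fs s p (x + h)).1 h2, ?_⟩
  have e : -(x + (h : ℤ)) + h = -x := by ring
  rw [e]
  exact (dvd_Fs s p x).1 h1

theorem Fl_congr (s p : ℕ) (x y : ℤ) (h : (p : ℤ) ∣ x - y) : (p : ℤ) ∣ Fl s x ↔ (p : ℤ) ∣ Fl s y := by
  have e : Fl s x - Fl s y = (x - y) * (s - x - y) := by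
    unfold Fl
    ring
  have h1 : (p : ℤ) ∣ Fl s x - Fl s y := by
    rw [e]
    exact h.mul_right _
  constructor
  · intro h2
    have := dvd_sub h2 h1
    rwa [sub_sub_cancel] at this
  · intro h2
    have := dvd_add h1 h2
    rwa [sub_add_cancel] at this

theorem rt_Fs (s p : ℕ) (hp : p.Prime) : rt (Fs s) p = rt (Fl s) p := by
  unfold rt
  have hp0 : 0 < p := hp.pos
  have key : ∀ r : ℕ, r < p → (p : ℤ) ∣ (((p - r) % p : ℕ) : ℤ) - (-(r : ℤ)) := by
    intro r hr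
    have h1 : (p : ℤ) ∣ ((p - r : ℕ) : ℤ) - (((p - r) % p : ℕ) : ℤ) := by
      rw [← Int.natCast_sub (Nat.mod_le _ _)]
      exact_mod_cast Nat.dvd_sub_mod (p - r)
    have h2 : ((p - r : ℕ) : ℤ) = p - r := by
      rw [Nat.cast_sub hr.le]
    rw [h2] at h1
    have h3 : (((p - r) % p : ℕ) : ℤ) - (-(r : ℤ)) = p - (((p : ℤ) - r) - (((p - r) % p : ℕ) : ℤ)) := by ring
    rw [h3]
    exact dvd_sub (dvd_refl _) h1
  have inv : ∀ r : ℕ, r < p → (p - (p - r) % p) % p = r := by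
    intro r hr
    rcases Nat.eq_zero_or_pos r with h0 | h0
    · subst h0
      simp
    · rw [Nat.mod_eq_of_lt (show p - r < p by omega)]
      rw [show p - (p - r) = r by omega, Nat.mod_eq_of_lt hr]
  refine card_nbij' (fun r => (p - r) % p) (fun r => (p - r) % p) ?_ ?_ ?_ ?_
  · intro r hr
    rw [mem_coe, mem_filter, mem_range] at hr ⊢
    refine ⟨Nat.mod_lt _ hp0, ?_⟩
    exact (Fl_congr s p _ _ (key r hr.1)).2 ((dvd_Fs s p r).1 hr.2)
  · intro r hr
    rw [mem_coe, mem_filter, mem_range] at hr ⊢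
    refine ⟨Nat.mod_lt _ hp0, ?_⟩
    rw [dvd_Fs]
    refine (Fl_congr s p _ (r : ℤ) ?_).2 hr.2
    have h1 := key r hr.1
    have e : -((((p - r) % p : ℕ) : ℤ)) - (r : ℤ) = -((((p - r) % p : ℕ) : ℤ) - (-(r : ℤ)) ) := by ring
    rw [e]
    exact (dvd_neg).2 h1
  · intro r hr
    rw [mem_coe, mem_filter, mem_range] at hr
    exact inv r hr.1
  · intro r hr
    rw [mem_coe, mem_filter, mem_range] at hr
    exact inv r hr.1

theorem V_Fs (s W z : ℕ) : V (Fs s) W z = V (Fl s) W z := by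
  unfold V
  apply prod_congr rfl
  intro p hp
  unfold PS at hp
  rw [mem_filter] at hp
  rw [rt_Fs s p hp.2.1]

theorem sys_Fs (hSYS : S_SYSX) (s : ℕ) (hs : Even s) : SysP 9 (Fs s) where
  per := by
    intro p _ n
    have e : Fs s (n + p) = Fs s n + p * (2 * n + p + s) := by
      unfold Fs
      ring
    rw [e]
    exact dvd_add_left (dvd_mul_right _ _)
  root := by
    intro p hp
    have h := ((hSYS s).1 hs).root p hp
    rw [rt_Fs s p hp]
    exact ⟨h.1.trans (by norm_num), h.2⟩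

set_option maxHeartbeats 1600000 in
theorem pair_of (hENG : S_ENGX) (hSTRIP : S_STRIP) (hSYS : S_SYSX) (hBAD : S_BADX) (hLAR : S_LARX) (hV : S_VX) :
    S_PAIR := by
  classical
  intro k δ κ hδ hκ
  obtain ⟨K, hK, hV⟩ := hV
  obtain ⟨εE, hεE, B, H₂, hE⟩ := hENG (max k 2) 9 δ (κ / (2 * K)) (le_max_right _ _) hδ (by positivity)
  obtain ⟨H₃, hX⟩ := hBAD B εE hεE
  obtain ⟨H₄, hL⟩ := hLAR B (1 / 40) (by norm_num)
  have hs : Tendsto (fun N : ℕ => (N : ℝ)) atTop atTop := tendsto_natCast_atTop_atTop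
  obtain ⟨n₀, hn₀⟩ := eventually_atTop.1 ((eventually_ge_atTop (H₂ + H₃ + H₄ + 10)).and
    (hs.eventually_ge_atTop (Real.exp (9 : ℝ))))
  refine ⟨B, n₀, fun H hH s Y hev hHs hsH hYH S hSsub hSp hSc => ?_⟩
  obtain ⟨n1, n2⟩ := hn₀ H hH
  have hH0 : (0 : ℝ) < H := lt_of_lt_of_le (Real.exp_pos _) n2
  have hexpH : (9 : ℝ) ≤ Real.log H := by
    rw [Real.le_log_iff_exp_le hH0]
    exact n2
  have hlogH : 0 < Real.log H := by linarith
  have n9 : (20 : ℝ) ≤ Real.exp (√(Real.log H)) := by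
    have h11 : (3 : ℝ) ≤ √(Real.log H) := by
      apply Real.le_sqrt_of_sq_le
      linarith
    have h12 : (20 : ℝ) ≤ Real.exp 3 := by
      have h13 : (2.7182818283 : ℝ) < Real.exp 1 := Real.exp_one_gt_d9
      have e : Real.exp 3 = Real.exp 1 ^ 3 := by rw [← Real.exp_nat_mul]; norm_num
      rw [e]
      have : (2.7182818283 : ℝ) ^ 3 ≤ Real.exp 1 ^ 3 := pow_le_pow_left₀ (by norm_num) h13.le 3
      have h14 : (20 : ℝ) ≤ 2.7182818283 ^ 3 := by norm_num
      linarith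
    exact h12.trans (Real.exp_le_exp.2 h11)
  -- the stripped function
  obtain ⟨bad, hbd⟩ : ∃ bad : ℕ → Prop, bad = fun p : ℕ => Real.exp (√(Real.log H)) ≤ p ∧
    ∃ h : ℕ, 1 ≤ h ∧ (h : ℝ) ≤ Real.log H ^ B ∧ CF (Fl s) h p := ⟨_, rfl⟩
  obtain ⟨F, hF⟩ : ∃ F : ℤ → ℤ, F = strip (Fs s) H bad := ⟨_, rfl⟩
  obtain ⟨s1, s2, s3, s4⟩ := hSTRIP 9 (Fs s) H bad (sys_Fs hSYS s hev)
  rw [← hF] at s1 s2 s3 s4
  have hCF : ∀ h p : ℕ, p.Prime → CF F h p → CF (Fl s) h p ∧ ¬ bad p := by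
    rintro h p hp ⟨x, hx, hx'⟩
    have g1 := (s2 x p hp).1 hx
    have g2 := (s2 (x + h) p hp).1 hx'
    exact ⟨CF_Fs s h p ⟨x, g1.2.2, g2.2.2⟩, g1.2.1⟩
  have hVb : V F 1 H ≤ 2 * V (Fl s) 1 H := by
    rw [← V_Fs s 1 H]
    apply s4
    · have h1 := hL H (by omega) s hHs hsH
      have e : (1 : ℝ) / (4 * ((9 : ℕ) + 1)) = 1 / 40 := by norm_num
      rw [e]
      refine le_trans (le_of_eq ?_) h1
      apply sum_congr _ (fun _ _ => rfl)
      ext p
      simp only [mem_filter, hbd]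
    · intro p hp hbp
      rw [hbd] at hbp
      have h1 := n9.trans hbp.1
      have : (20 : ℕ) ≤ p := by exact_mod_cast h1
      omega
  have hVK := hV s H (by omega) hev (by omega)
  have hV0 : 0 < V F 1 H := Pool.Agent.K3h89.SZ.V_posP s1 1 H
  -- the density
  have hden : κ / (2 * K) * (H * V F 1 H) ≤ S.card := by
    refine le_trans ?_ hSc
    have h1 : V F 1 H ≤ 2 * (K * sg s / Real.log H ^ 2) := by linarith
    calc κ / (2 * K) * (H * V F 1 H) ≤ κ / (2 * K) * (H * (2 * (K * sg s / Real.log H ^ 2))) := by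
          gcongr
      _ = κ * (sg s * (H / Real.log H ^ 2)) := by
          field_simp
  -- the theorem
  obtain ⟨a, d, hd1, hd2, hAP⟩ := hE F Y H S s1 (by omega)
    (by
      intro x hx
      rw [mem_Ioc] at hx
      have hne : Fs s (x : ℤ) ≠ 0 := by
        unfold Fs
        rw [mul_ne_zero_iff]
        constructor <;> omega
      obtain ⟨g1, g2⟩ := s3 x hne
      refine ⟨g1, g2.trans ?_⟩
      have e1 : Fs s (x : ℤ) = ((x * (x + s) : ℕ) : ℤ) := by
        unfold Fs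
        push_cast
        rfl
      rw [e1, Nat.abs_cast]
      have hH10 : 10 ≤ H := by omega
      have h1 : x ≤ 2 * H ^ 4 := by
        have : H ≤ H ^ 4 := Nat.le_self_pow (by norm_num) H
        omega
      have h2 : x + s ≤ 3 * H ^ 4 := by
        have : H ^ 2 ≤ H ^ 4 := Nat.pow_le_pow_right (by omega) (by norm_num)
        omega
      have h3 : x * (x + s) ≤ H ^ 9 := by
        calc x * (x + s) ≤ (2 * H ^ 4) * (3 * H ^ 4) := Nat.mul_le_mul h1 h2
          _ = 6 * H ^ 8 := by ring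
          _ ≤ H * H ^ 8 := Nat.mul_le_mul_right _ (by omega)
          _ = H ^ 9 := by ring
      exact_mod_cast h3)
    (by
      intro W N hW1 hW2 hN1 hN2 hWp
      refine le_trans ?_ (hX H (by omega) s hHs hsH W N hW1 hW2 hN1 hN2 hWp)
      rw [Nat.cast_le]
      apply card_le_card
      intro j hj
      rw [mem_filter] at hj ⊢
      refine ⟨hj.1, lt_of_lt_of_le hj.2 ?_⟩
      apply sum_le_sum_of_subset_of_nonneg
      · intro p hp
        rw [mem_filter] at hp ⊢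
        have hp1 := hp.1
        unfold PS at hp1
        rw [mem_filter] at hp1
        exact ⟨hp.1, (hCF _ p hp1.2.1 hp.2).1⟩
      · intro p _ _
        positivity)
    (by
      intro h hh1 hh2 p hp hpe hcf
      obtain ⟨g1, g2⟩ := hCF h p hp hcf
      apply g2
      rw [hbd]
      exact ⟨hpe, h, hh1, hh2, g1⟩)
    hSsub
    (by
      intro x hx q hq hqH hqd
      have g1 := ((s2 x q hq).1 hqd).2.2
      apply hSp x hx q hq hqH
      unfold Fs at g1
      exact_mod_cast g1)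
    hden
  exact ⟨a, d, hd1, hd2, fun i hi => hAP i (lt_of_lt_of_le hi (le_max_left _ _))⟩

theorem pair : S_PAIR :=
  pair_of Pool.Agent.K3h89.SX.engX_all Pool.Agent.K3h89.SZ.stripP Pool.Agent.K3h73.SX.sysX
    (Pool.Agent.K3h89.SX.badX Pool.Agent.K3h89.SX.mom Pool.Agent.K3h73.SX.sysX)
    (Pool.Agent.K3h73.SX.larX Pool.Agent.K3h73.SX.sysX) Pool.Agent.K3h89.SX.vX

end Pool.Agent.K3h89.SD
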