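import Pool.Agent.K3h89.SD.Stm
import Pool.Agent.K3h31.LP.Prod

/-! Project SD (helper89): two dense sets at a distance -/

set_option autoImplicit false

open Finset Filter

namespace Pool.Agent.K3h89.SD

open Pool.Agent.K3h89.SX (sg)
open Pool.Agent.K3h31

theorem sg_nonneg (s : ℕ) : 0 ≤ sg s := by
  unfold sg
  apply prod_nonneg
  intro p hp
  rw [mem_erase, Nat.mem_primeFactors] at hp
  have h2 := hp.2.1.two_le
  have h3 : 3 ≤ p := by
    rcases Nat.lt_or_ge p 3 with h | h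
    · exact absurd (show p = 2 by omega) hp.1
    · exact h
  have h3r : (3 : ℝ) ≤ p := by exact_mod_cast h3
  apply div_nonneg <;> linarith

/-- the windows -/
theorem window (A : Finset ℕ) (M₀ n H : ℕ) (hH : 1 ≤ H) (hHn : H ≤ n) (hA : ∀ x ∈ A, M₀ < x ∧ x ≤ M₀ + n)
    (b : ℝ) (hb : 0 ≤ b) (hc : 2 * ((n : ℝ) / H) * b ≤ A.card) :
    ∃ u : ℕ, u * H ≤ n ∧ b ≤ ((A.filter (fun x => M₀ + u * H < x ∧ x ≤ M₀ + u * H + H)).card : ℝ) := by
  classical
  have hH0 : (0 : ℝ) < H := by exact_mod_cast hH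
  obtain ⟨u, hu, hub⟩ := exists_le_card_fiber_of_nsmul_le_card_of_maps_to (s := A) (t := range (n / H + 1))
    (f := fun x => (x - M₀ - 1) / H) (b := b)
    (by
      intro x hx
      rw [mem_range]
      have h1 := hA x hx
      have : (x - M₀ - 1) / H ≤ n / H := Nat.div_le_div_right (by omega)
      omega)
    (by simp)
    (by
      rw [card_range, nsmul_eq_mul]
      refine le_trans ?_ hc
      apply mul_le_mul_of_nonneg_right _ hb
      push_cast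
      have h1 : ((n / H : ℕ) : ℝ) ≤ (n : ℝ) / H := Nat.cast_div_le
      have h2 : (1 : ℝ) ≤ (n : ℝ) / H := by
        rw [le_div_iff₀ hH0, one_mul]
        exact_mod_cast hHn
      linarith)
  refine ⟨u, ?_, hub.trans ?_⟩
  · rw [mem_range] at hu
    have h1 : u ≤ n / H := by omega
    exact (Nat.mul_le_mul_right H h1).trans (Nat.div_mul_le_self n H)
  · rw [Nat.cast_le]
    apply card_le_card
    intro x hx
    rw [mem_filter] at hx ⊢
    have h1 := hA x hx.1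
    refine ⟨hx.1, ?_⟩
    have h2 := Nat.div_add_mod (x - M₀ - 1) H
    have h3 := Nat.mod_lt (x - M₀ - 1) (show 0 < H by omega)
    rw [hx.2] at h2
    have e : H * u = u * H := mul_comm _ _
    rw [e] at h2
    constructor <;> omega

theorem two (hPAIR : S_PAIR) (hAVG : S_AVG) : S_TWO := by
  classical
  intro k δ κ hδ hκ
  obtain ⟨C, hC, hAVG⟩ := hAVG
  obtain ⟨B, H₀, hP⟩ := hPAIR k δ (κ ^ 2 / (100 * C)) hδ (by positivity)
  have hT := tendsto_natCast_atTop_atTop (R := ℝ)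
  have ev1 : ∀ᶠ n : ℕ in atTop, (8 / κ) * Real.log n ^ 1 * (n : ℝ) ^ (3 / 5 : ℝ) ≤ (n : ℝ) ^ (1 : ℝ) :=
    LP.log_pow_le (8 / κ) 1 (3 / 5) 1 (by norm_num)
  have ev2 : ∀ᶠ n : ℕ in atTop, (H₀ : ℝ) + 10 ≤ (n : ℝ) ^ (3 / 5 : ℝ) :=
    ((tendsto_rpow_atTop (show (0 : ℝ) < 3 / 5 by norm_num)).comp hT).eventually_ge_atTop _
  have ev3 : ∀ᶠ n : ℕ in atTop, (3 : ℝ) ≤ (n : ℝ) ^ δ :=
    ((tendsto_rpow_atTop hδ).comp hT).eventually_ge_atTop _
  have ev4 : ∀ᶠ n : ℕ in atTop, (10 : ℝ) ≤ (n : ℝ) ^ (1 / 5 : ℝ) :=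
    ((tendsto_rpow_atTop (show (0 : ℝ) < 1 / 5 by norm_num)).comp hT).eventually_ge_atTop _
  obtain ⟨n₀, hn₀⟩ := eventually_atTop.1 (((ev1.and ev2).and (ev3.and ev4)).and (eventually_ge_atTop 100))
  refine ⟨B, n₀, fun n hn A₁ A₂ hA₁ hA₂ hsm hc₁ hc₂ => ?_⟩
  obtain ⟨⟨⟨w1, w2⟩, w3, w4⟩, w5⟩ := hn₀ n hn
  have hnr : (100 : ℝ) ≤ n := by exact_mod_cast w5
  have hn0 : (0 : ℝ) < n := by linarith
  have hl : 1 ≤ Real.log n := by
    rw [Real.le_log_iff_exp_le hn0]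
    linarith [Real.exp_one_lt_d9]
  have hl0 : 0 < Real.log n := by linarith
  rw [pow_one, Real.rpow_one] at w1
  obtain ⟨H, hH⟩ : ∃ H : ℕ, H = ⌈(n : ℝ) ^ (3 / 5 : ℝ)⌉₊ := ⟨_, rfl⟩
  obtain ⟨y, hy⟩ : ∃ y : ℝ, y = (n : ℝ) ^ (1 / 5 : ℝ) := ⟨_, rfl⟩
  have hy3 : (n : ℝ) ^ (3 / 5 : ℝ) = y ^ 3 := by
    rw [hy, ← Real.rpow_natCast, ← Real.rpow_mul hn0.le]
    norm_num
  have hy5 : (n : ℝ) = y ^ 5 := by
    rw [hy, ← Real.rpow_natCast, ← Real.rpow_mul hn0.le]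
    norm_num
  rw [← hy] at w4
  rw [hy3] at w1 w2 hH
  have hy0 : 0 < y := by linarith
  have hH1 : y ^ 3 ≤ H := by rw [hH]; exact Nat.le_ceil _
  have hH2 : (H : ℝ) < y ^ 3 + 1 := by rw [hH]; exact Nat.ceil_lt_add_one (by positivity)
  have hy31 : (1000 : ℝ) ≤ y ^ 3 := by
    calc (1000 : ℝ) = 10 ^ 3 := by norm_num
      _ ≤ y ^ 3 := pow_le_pow_left₀ (by norm_num) w4 3
  have hH3 : (H : ℝ) ≤ 2 * y ^ 3 := by linarith
  have hH0 : (0 : ℝ) < H := by linarith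
  have hH₀ : H₀ ≤ H := by
    have : (H₀ : ℝ) ≤ H := by linarith
    exact_mod_cast this
  have hHn : (H : ℝ) < n := by
    have h1 : 10 * y ^ 3 ≤ (n : ℝ) := by
      have e : (n : ℝ) = y ^ 2 * y ^ 3 := by rw [hy5]; ring
      rw [e]
      apply mul_le_mul_of_nonneg_right _ (by positivity)
      nlinarith
    linarith
  have hHn' : H < n := by exact_mod_cast hHn
  have hHpos : 1 ≤ H := by
    have : (0 : ℝ) < H := hH0
    exact_mod_cast this
  have hH2n : 2 * (n : ℝ) + H ≤ (H : ℝ) ^ 2 := by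
    have h1 : (y ^ 3) ^ 2 ≤ (H : ℝ) ^ 2 := pow_le_pow_left₀ (by positivity) hH1 2
    have h2 : 10 * y ^ 5 ≤ (y ^ 3) ^ 2 := by
      have : (y ^ 3) ^ 2 = y * y ^ 5 := by ring
      rw [this]
      exact mul_le_mul_of_nonneg_right w4 (by positivity)
    have h3 : (H : ℝ) < n := hHn
    rw [← hy5] at h2
    linarith
  have hH2n' : 2 * n + H ≤ H ^ 2 := by exact_mod_cast hH2n
  have hlH : 3 / 5 * Real.log n ≤ Real.log H := by
    rw [← Real.log_rpow hn0]
    apply Real.log_le_log (by positivity)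
    rw [hy3]
    exact hH1
  have hlH0 : 0 < Real.log H := by linarith
  have hlHn : Real.log H ≤ Real.log n := Real.log_le_log hH0 hHn.le
  -- the size of H
  have hHκ : (H : ℝ) ≤ κ / 2 * (n / Real.log n) := by
    have h1 : 8 / κ * Real.log n * (H / 2) ≤ n := by
      refine le_trans ?_ w1
      gcongr
      linarith
    have h2 : κ / 2 * (n / Real.log n) = κ * n / (2 * Real.log n) := by
      field_simp
    rw [h2, le_div_iff₀ (by positivity)]
    have h3 := mul_le_mul_of_nonneg_left h1 hκ.le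
    have e : κ * (8 / κ * Real.log n * (H / 2)) = 4 * (Real.log n * H) := by
      field_simp
      ring
    rw [e] at h3
    have h4 : 0 ≤ Real.log n * H := by positivity
    nlinarith
  have hnn : n ≤ n ^ 2 := Nat.le_self_pow (by norm_num) n
  -- the first set
  obtain ⟨A₁', hA₁'⟩ : ∃ A : Finset ℕ, A = A₁.filter (fun x => x ≤ n ^ 2 - H) := ⟨_, rfl⟩
  have hcard₁ : κ / 2 * (n / Real.log n) ≤ A₁'.card := by
    have h1 : A₁.card ≤ A₁'.card + H := by
      have h2 : A₁ ⊆ A₁' ∪ Ioo (n ^ 2 - H) (n ^ 2) := by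
        intro x hx
        rw [mem_union, hA₁', mem_filter, mem_Ioo]
        by_cases h : x ≤ n ^ 2 - H
        · exact Or.inl ⟨hx, h⟩
        · exact Or.inr ⟨by omega, (hA₁ x hx).2⟩
      have h3 := (card_le_card h2).trans (card_union_le _ _)
      rw [Nat.card_Ioo] at h3
      omega
    have h2 : (A₁.card : ℝ) ≤ A₁'.card + H := by exact_mod_cast h1
    have h3 : κ * (n / Real.log n) = κ / 2 * (n / Real.log n) + κ / 2 * (n / Real.log n) := by ring
    linarith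
  have hdiv : 2 * ((n : ℝ) / H) * (κ / 4 * (H / Real.log n)) = κ / 2 * (n / Real.log n) := by
    field_simp
    ring
  obtain ⟨u, hu1, hu2⟩ := window A₁' (n ^ 2 - n) n H hHpos hHn'.le (by
    intro x hx
    rw [hA₁', mem_filter] at hx
    have := hA₁ x hx.1
    constructor <;> omega) (κ / 4 * (H / Real.log n)) (by positivity) (by rw [hdiv]; exact hcard₁)
  obtain ⟨v, hv1, hv2⟩ := window A₂ (n ^ 2) n H hHpos hHn'.le (by
    intro x hx
    have := hA₂ x hx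
    constructor <;> omega) (κ / 4 * (H / Real.log n)) (by positivity) (by
      rw [hdiv]
      have : 0 ≤ κ / 2 * (n / Real.log n) := by positivity
      linarith)
  obtain ⟨Y₁, hY₁⟩ : ∃ Y : ℕ, Y = n ^ 2 - n + u * H := ⟨_, rfl⟩
  obtain ⟨Y₂, hY₂⟩ : ∃ Y : ℕ, Y = n ^ 2 + v * H := ⟨_, rfl⟩
  rw [← hY₁] at hu2
  rw [← hY₂] at hv2
  obtain ⟨D₁, hD₁⟩ : ∃ D : Finset ℕ, D = A₁'.filter (fun x => Y₁ < x ∧ x ≤ Y₁ + H) := ⟨_, rfl⟩
  obtain ⟨D₂, hD₂⟩ : ∃ D : Finset ℕ, D = A₂.filter (fun x => Y₂ < x ∧ x ≤ Y₂ + H) := ⟨_, rfl⟩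
  rw [← hD₁] at hu2
  rw [← hD₂] at hv2
  have hm₁ : ∀ x ∈ D₁, x ∈ A₁ ∧ x ≤ n ^ 2 - H ∧ Y₁ < x ∧ x ≤ Y₁ + H := by
    intro x hx
    rw [hD₁, mem_filter, hA₁', mem_filter] at hx
    exact ⟨hx.1.1, hx.1.2, hx.2⟩
  have hm₂ : ∀ x ∈ D₂, x ∈ A₂ ∧ Y₂ < x ∧ x ≤ Y₂ + H := by
    intro x hx
    rw [hD₂, mem_filter] at hx
    exact ⟨hx.1, hx.2⟩
  have hpos : (0 : ℝ) < κ / 4 * (H / Real.log n) := by positivity
  have hne : D₁.Nonempty := by
    rw [← card_pos]
    have : (0 : ℝ) < D₁.card := by linarith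
    exact_mod_cast this
  obtain ⟨x₀, hx₀⟩ := hne
  have hYY : Y₁ + H < Y₂ := by
    have h1 := hm₁ x₀ hx₀
    have h2 : H ≤ n ^ 2 := by omega
    omega
  obtain ⟨S₀, hS₀⟩ : ∃ S : ℕ, S = Y₂ - Y₁ - H := ⟨_, rfl⟩
  have hSL : S₀ + 2 * H ≤ (2 * H) ^ 2 := by
    have h1 : S₀ + 2 * H ≤ 2 * n + H := by omega
    have h2 : H ^ 2 ≤ (2 * H) ^ 2 := Nat.pow_le_pow_left (by omega) 2
    omega
  have hS2 : S₀ + 2 * H ≤ H ^ 2 := by omega
  have havg := hAVG S₀ (2 * H) (by omega) hSL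
  -- the number of pairs
  have hmaps : ∀ z ∈ D₁ ×ˢ D₂, z.2 - z.1 ∈ Ioc S₀ (S₀ + 2 * H) := by
    intro z hz
    rw [mem_product] at hz
    have h1 := hm₁ z.1 hz.1
    have h2 := hm₂ z.2 hz.2
    rw [mem_Ioc]
    constructor <;> omega
  have hpairs := card_eq_sum_card_fiberwise hmaps
  rw [card_product] at hpairs
  have hfib : ∀ s ∈ Ioc S₀ (S₀ + 2 * H), ((D₁ ×ˢ D₂).filter (fun z => z.2 - z.1 = s)).card ≤
      (D₁.filter (fun x => x + s ∈ D₂)).card := by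
    intro s hs
    apply card_le_card_of_injOn (fun z => z.1)
    · intro z hz
      rw [mem_coe, mem_filter, mem_product] at hz
      rw [mem_coe, mem_filter]
      have h1 := hm₁ z.1 hz.1.1
      have h2 := hm₂ z.2 hz.1.2
      refine ⟨hz.1.1, ?_⟩
      have e : z.1 + s = z.2 := by omega
      rw [e]
      exact hz.1.2
    · intro z hz z' hz' h
      rw [mem_coe, mem_filter, mem_product] at hz hz'
      have h1 := hm₁ z.1 hz.1.1
      have h2 := hm₂ z.2 hz.1.2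
      have h1' := hm₁ z'.1 hz'.1.1
      have h2' := hm₂ z'.2 hz'.1.2
      simp only at h
      apply Prod.ext
      · exact h
      · omega
  have hsum : (D₁.card : ℝ) * D₂.card ≤
      ∑ s ∈ Ioc S₀ (S₀ + 2 * H), ((D₁.filter (fun x => x + s ∈ D₂)).card : ℝ) := by
    have h1 : D₁.card * D₂.card ≤ ∑ s ∈ Ioc S₀ (S₀ + 2 * H), (D₁.filter (fun x => x + s ∈ D₂)).card := by
      rw [hpairs]
      exact sum_le_sum hfib
    exact_mod_cast h1
  -- a good shift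
  obtain ⟨s, hs, hsr, hsc⟩ : ∃ s ∈ Ioc S₀ (S₀ + 2 * H), (D₁.filter (fun x => x + s ∈ D₂)).Nonempty ∧
      κ ^ 2 / (100 * C) * (sg s * (H / Real.log H ^ 2)) ≤ ((D₁.filter (fun x => x + s ∈ D₂)).card : ℝ) := by
    by_contra hcon
    push Not at hcon
    have h1 : ∀ s ∈ Ioc S₀ (S₀ + 2 * H), ((D₁.filter (fun x => x + s ∈ D₂)).card : ℝ) ≤
        κ ^ 2 / (100 * C) * (sg s * (H / Real.log H ^ 2)) := by
      intro s hs
      by_cases h2 : (D₁.filter (fun x => x + s ∈ D₂)).Nonempty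
      · exact (hcon s hs h2).le
      · rw [not_nonempty_iff_eq_empty] at h2
        rw [h2, card_empty]
        have := sg_nonneg s
        push_cast
        positivity
    have h2 := hsum.trans (sum_le_sum h1)
    rw [← mul_sum, ← sum_mul] at h2
    have h3 : κ ^ 2 / (100 * C) * ((∑ s ∈ Ioc S₀ (S₀ + 2 * H), sg s) * (H / Real.log H ^ 2)) ≤
        κ ^ 2 / (100 * C) * ((C * ((2 * H : ℕ) : ℝ)) * (H / Real.log H ^ 2)) := by
      gcongr
    have h4 : κ / 4 * (H / Real.log n) * (κ / 4 * (H / Real.log n)) ≤ (D₁.card : ℝ) * D₂.card :=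
      mul_le_mul hu2 hv2 hpos.le (Nat.cast_nonneg _)
    have h5 := h4.trans (h2.trans h3)
    have e1 : κ / 4 * (H / Real.log n) * (κ / 4 * (H / Real.log n)) = κ ^ 2 * H ^ 2 / 16 * (1 / Real.log n ^ 2) := by
      field_simp
      ring
    have e2 : κ ^ 2 / (100 * C) * ((C * ((2 * H : ℕ) : ℝ)) * (H / Real.log H ^ 2)) =
        κ ^ 2 * H ^ 2 / 50 * (1 / Real.log H ^ 2) := by
      push_cast
      field_simp
      ring
    rw [e1, e2] at h5
    have h6 : 1 / Real.log H ^ 2 ≤ 25 / 9 * (1 / Real.log n ^ 2) := by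
      rw [mul_one_div, div_le_div_iff₀ (by positivity) (by positivity)]
      have := pow_le_pow_left₀ (by positivity) hlH 2
      nlinarith
    have h7 : κ ^ 2 * H ^ 2 / 50 * (1 / Real.log H ^ 2) ≤ κ ^ 2 * H ^ 2 / 50 * (25 / 9 * (1 / Real.log n ^ 2)) := by
      gcongr
    have h8 : 0 < κ ^ 2 * (H : ℝ) ^ 2 * (1 / Real.log n ^ 2) := by positivity
    nlinarith
  obtain ⟨x, hx⟩ := hsr
  rw [mem_filter] at hx
  have hx1 := hm₁ x hx.1
  have hx2 := hm₂ (x + s) hx.2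
  have hodd : ∀ z ∈ A₁ ∪ A₂, ¬ 2 ∣ z := by
    intro z hz h
    have := hsm z hz 2 Nat.prime_two h
    norm_num at this
    linarith
  have hev : Even s := by
    have h1 := hodd x (mem_union_left _ hx1.1)
    have h2 := hodd (x + s) (mem_union_right _ hx2.1)
    rw [Nat.even_iff]
    omega
  rw [mem_Ioc] at hs
  obtain ⟨a, d, hd1, hd2, hAP⟩ := hP H hH₀ s Y₁ hev (by
      have h2 : H ≤ n ^ 2 := by omega
      omega) (by omega) (by
      have h1 : Y₁ ≤ n ^ 2 := by omega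
      have h2 : n ^ 2 ≤ (H ^ 2) ^ 2 := Nat.pow_le_pow_left (by omega) 2
      have e : (H ^ 2) ^ 2 = H ^ 4 := by ring
      omega) (D₁.filter (fun x => x + s ∈ D₂))
    (by
      intro z hz
      rw [mem_filter] at hz
      have := hm₁ z hz.1
      rw [mem_Ioc]
      exact this.2.2)
    (by
      intro z hz p hp hpH hpd
      rw [mem_filter] at hz
      have h1 : (n : ℝ) ^ δ ≤ p := by
        rcases hp.dvd_mul.1 hpd with h | h
        · exact hsm z (mem_union_left _ (hm₁ z hz.1).1) p hp h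
        · exact hsm (z + s) (mem_union_right _ (hm₂ _ hz.2).1) p hp h
      have h2 : (H : ℝ) ^ δ < (n : ℝ) ^ δ := Real.rpow_lt_rpow hH0.le hHn hδ
      linarith)
    hsc
  refine ⟨a, a + s, d, hd1, hd2.trans (pow_le_pow_left₀ hlH0.le hlHn B), fun i hi => ?_⟩
  have h1 := hAP i hi
  rw [mem_filter] at h1
  refine ⟨(hm₁ _ h1.1).1, ?_⟩
  have e : a + s + i * d = a + i * d + s := by ring
  rw [e]
  exact (hm₂ _ h1.2).1

end Pool.Agent.K3h89.SD
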